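import Pool.Agent.R117.RL.Cst

/-!
The constant for radial systems is asymptotically `e² / 4` times the semiclassical constant or more.
-/

open MeasureTheory Set Filter Topology

namespace Pool.Agent.R117.RL

theorem Kcl_upper {d : ℕ} (hd : 4 ≤ d) :
    Kcl d ≤ 2 * Real.pi / Real.exp 1 * d * (Real.pi ^ 2 * d) ^ (1 / (d : ℝ)) := by
  have hd0 : 0 < d := by omega
  have hd' : (4 : ℝ) ≤ d := by exact_mod_cast hd
  have hπ := Real.pi_pos
  have hG := Ga_pos d
  have he0 := Real.exp_pos 1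
  have h0 : 0 ≤ 2 * Real.pi / Real.exp 1 * d * (Real.pi ^ 2 * d) ^ (1 / (d : ℝ)) := by positivity
  apply le_of_pow_le_pow_left₀ hd0.ne' h0
  have e1 := pow_frac (x := Real.pi ^ 2 * d) (by positivity) hd0 1
  simp only [Nat.cast_one, pow_one] at e1
  rw [Kcl_pow hd0, mul_pow _ ((Real.pi ^ 2 * (d : ℝ)) ^ (1 / (d : ℝ))) d, e1]
  have hb := Ga_sq d hd
  have h1 : ((d : ℝ) / (d + 2)) ^ d ≤ 1 := by
    apply pow_le_one₀ (by positivity)
    rw [div_le_one (by positivity)]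
    linarith
  calc ((d : ℝ) / (d + 2)) ^ d * 4 ^ d * Real.pi ^ d * Ga d ^ 2
      ≤ 1 * 4 ^ d * Real.pi ^ d * (Real.pi ^ 2 * ((d : ℝ) ^ (d + 1) / (2 * Real.exp 1) ^ d)) := by
        apply mul_le_mul _ hb (by positivity) (by positivity)
        apply mul_le_mul_of_nonneg_right _ (by positivity)
        exact mul_le_mul_of_nonneg_right h1 (by positivity)
    _ = (4 * Real.pi / (2 * Real.exp 1)) ^ d * (Real.pi ^ 2 * (d : ℝ) ^ (d + 1)) := by
        rw [div_pow, mul_pow 4]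
        ring
    _ = _ := by
        have e2 : 4 * Real.pi / (2 * Real.exp 1) = 2 * Real.pi / Real.exp 1 := by
          field_simp
          ring
        rw [e2, mul_pow _ (d : ℝ) d, pow_succ]
        ring

theorem root_tendsto : Tendsto (fun d : ℕ => (Real.pi ^ 2 * (d : ℝ)) ^ (1 / (d : ℝ))) atTop (𝓝 1) := by
  have hπ := Real.pi_pos
  have h1 : Tendsto (fun d : ℕ => (d : ℝ) ^ (1 / (d : ℝ))) atTop (𝓝 1) :=
    tendsto_rpow_div.comp tendsto_natCast_atTop_atTop
  have h2 : Tendsto (fun d : ℕ => (Real.pi ^ 2) ^ (1 / (d : ℝ))) atTop (𝓝 1) := by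
    have h3 : Tendsto (fun d : ℕ => 1 / (d : ℝ)) atTop (𝓝 0) := tendsto_one_div_atTop_nhds_zero_nat
    have h4 : Tendsto (fun x : ℝ => (Real.pi ^ 2) ^ x) (𝓝 0) (𝓝 ((Real.pi ^ 2) ^ (0 : ℝ))) :=
      (Real.continuousAt_const_rpow (by positivity : Real.pi ^ 2 ≠ 0)).tendsto
    rw [Real.rpow_zero] at h4
    exact h4.comp h3
  have h5 := h2.mul h1
  rw [mul_one] at h5
  refine h5.congr fun d => ?_
  rw [Real.mul_rpow (by positivity) (Nat.cast_nonneg d)]

theorem ratio {c : ℝ} (hc : c < Real.exp 1 ^ 2 / 4) : ∀ᶠ d : ℕ in atTop,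
    c * Kcl d ≤ CC d (sg d) := by
  have hπ := Real.pi_pos
  have he0 := Real.exp_pos 1
  wlog hc0 : 0 < c generalizing c
  · have h1 := this (c := Real.exp 1 ^ 2 / 8) (by linarith [pow_pos he0 2]) (by positivity)
    filter_upwards [h1] with d hd
    refine le_trans ?_ hd
    apply mul_le_mul_of_nonneg_right
    · have : 0 < Real.exp 1 ^ 2 / 8 := by positivity
      linarith
    · have := om_pos d
      unfold Kcl
      positivity
  have h3 : Tendsto (fun d : ℕ => 1 / (d : ℝ)) atTop (𝓝 0) := tendsto_one_div_atTop_nhds_zero_nat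
  have h4 : Tendsto (fun d : ℕ => c * (2 * Real.pi / Real.exp 1) *
      (Real.pi ^ 2 * (d : ℝ)) ^ (1 / (d : ℝ)) - Real.pi * Real.exp 1 / 2 * (1 - 3 * (1 / (d : ℝ))))
      atTop (𝓝 (c * (2 * Real.pi / Real.exp 1) * 1 -
        Real.pi * Real.exp 1 / 2 * (1 - 3 * 0))) :=
    (root_tendsto.const_mul _).sub ((tendsto_const_nhds.sub (h3.const_mul 3)).const_mul _)
  have h5 : c * (2 * Real.pi / Real.exp 1) * 1 - Real.pi * Real.exp 1 / 2 * (1 - 3 * 0) < 0 := by
    have h6 : c * (2 * Real.pi / Real.exp 1) < Real.pi * Real.exp 1 / 2 := by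
      rw [← mul_div_assoc, div_lt_div_iff₀ he0 two_pos]
      nlinarith
    linarith
  filter_upwards [h4.eventually (gt_mem_nhds h5), eventually_ge_atTop 4] with d hd hd4
  have hd' : (4 : ℝ) ≤ d := by exact_mod_cast hd4
  have h7 := Kcl_upper hd4
  have h8 := CC_ge hd4
  refine le_trans (mul_le_mul_of_nonneg_left h7 hc0.le) (le_trans ?_ h8)
  have h9 : Real.pi * Real.exp 1 / 2 * ((d : ℝ) - 3) =
      (Real.pi * Real.exp 1 / 2 * (1 - 3 * (1 / (d : ℝ)))) * d := by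
    field_simp
  rw [h9]
  have h10 : c * (2 * Real.pi / Real.exp 1 * (d : ℝ) * (Real.pi ^ 2 * d) ^ (1 / (d : ℝ))) =
      (c * (2 * Real.pi / Real.exp 1) * (Real.pi ^ 2 * (d : ℝ)) ^ (1 / (d : ℝ))) * d := by
    ring
  rw [h10]
  apply mul_le_mul_of_nonneg_right _ (by linarith)
  linarith

end Pool.Agent.R117.RL
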