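import Pool.Agent.R117.RL.Rad

/-!
The constant for radial systems, compared with the semiclassical constant.
-/

open MeasureTheory Set

namespace Pool.Agent.R117.RL

/-- the semiclassical constant `d / (d + 2) * (2 π)² / ω_d ^ (2 / d)` -/
noncomputable def Kcl (d : ℕ) : ℝ :=
  d / (d + 2) * ((2 * Real.pi) ^ 2 / om d ^ (2 / (d : ℝ)))

/-- the value of the Gamma function at `d / 2 + 1` -/
noncomputable def Ga (d : ℕ) : ℝ := Real.Gamma ((d : ℝ) / 2 + 1)

theorem Ga_pos (d : ℕ) : 0 < Ga d := Real.Gamma_pos_of_pos (by positivity)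

theorem Ga_step (d : ℕ) : Ga (d + 2) = ((d : ℝ) + 2) / 2 * Ga d := by
  unfold Ga
  have h1 : (((d + 2 : ℕ) : ℝ) / 2 + 1) = ((d : ℝ) / 2 + 1) + 1 := by push_cast; ring
  rw [h1, Real.Gamma_add_one (by positivity)]
  ring

theorem om_sq {d : ℕ} (hd : 0 < d) : om d ^ 2 = Real.pi ^ d / Ga d ^ 2 := by
  have : Nonempty (Fin d) := ⟨⟨0, hd⟩⟩
  unfold om
  rw [EuclideanSpace.volume_ball, Fintype.card_fin, ENNReal.ofReal_one, one_pow, one_mul,
    ENNReal.toReal_ofReal (by
      have := Ga_pos d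
      unfold Ga at this
      positivity)]
  have h1 : (√Real.pi ^ d) ^ 2 = Real.pi ^ d := by
    rw [← pow_mul, mul_comm, pow_mul, Real.sq_sqrt Real.pi_pos.le]
  rw [div_pow, h1]
  rfl

theorem Ga_four : Ga 4 = 2 := by
  unfold Ga
  have : (((4 : ℕ) : ℝ) / 2 + 1) = ((2 : ℕ) : ℝ) + 1 := by norm_num
  rw [this, Real.Gamma_nat_eq_factorial]
  norm_num [Nat.factorial]

theorem Ga_one : Ga 1 = √Real.pi / 2 := by
  unfold Ga
  have : (((1 : ℕ) : ℝ) / 2 + 1) = (1 / 2 : ℝ) + 1 := by norm_num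
  rw [this, Real.Gamma_add_one (by norm_num), Real.Gamma_one_half_eq]
  ring

theorem Ga_five : Ga 5 = 15 / 16 * (2 * √Real.pi) := by
  have h3 := Ga_step 1
  have h5 := Ga_step 3
  rw [h3, Ga_one] at h5
  rw [h5]
  push_cast
  ring

theorem bern {x : ℝ} (hx : 0 ≤ x) (d : ℕ) :
    1 + d * x + d * (d - 1) * x ^ 2 / 2 ≤ (1 + x) ^ d := by
  induction d with
  | zero => simp
  | succ n ih =>
    rw [pow_succ]
    have h1 := mul_le_mul_of_nonneg_right ih (by linarith : 0 ≤ 1 + x)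
    refine le_trans ?_ h1
    push_cast
    have h2 : 0 ≤ (n : ℝ) * (n - 1) * x ^ 3 / 2 := by
      rcases Nat.eq_zero_or_pos n with h | h
      · rw [h]
        simp
      · have : (1 : ℝ) ≤ n := by exact_mod_cast h
        have : 0 ≤ (n : ℝ) - 1 := by linarith
        positivity
    nlinarith

/-- the bound for the Gamma function behind the comparison with the semiclassical constant -/
theorem Ga_bound (d : ℕ) (hd : 6 ≤ d) :
    Ga d ^ 4 ≤ ((((d : ℝ) - 3) * (d + 2)) / 16) ^ d * (d ^ 2 / (d - 3)) * Real.pi ^ 2 := by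
  induction d using Nat.strong_induction_on with
  | _ d ih =>
    have hπ : 3 < Real.pi := Real.pi_gt_three
    have hπ2 : 9.85 < Real.pi ^ 2 := by
      have := Real.pi_gt_d2
      nlinarith
    rcases Nat.lt_or_ge d 8 with h8 | h8
    · interval_cases d
      · rw [show (6 : ℕ) = 4 + 2 from rfl, Ga_step, Ga_four]
        push_cast
        norm_num
        nlinarith
      · rw [show (7 : ℕ) = 5 + 2 from rfl, Ga_step, Ga_five]
        have hs : √Real.pi ^ 2 = Real.pi := Real.sq_sqrt Real.pi_pos.le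
        have hs4 : √Real.pi ^ 4 = Real.pi ^ 2 := by
          rw [show (4 : ℕ) = 2 * 2 from rfl, pow_mul, hs]
        rw [mul_pow, mul_pow, mul_pow, hs4]
        push_cast
        norm_num
        nlinarith
    · obtain ⟨e, rfl⟩ : ∃ e, d = e + 2 := ⟨d - 2, by omega⟩
      have he : 6 ≤ e := by omega
      have hih := ih e (by omega) he
      have he' : (6 : ℝ) ≤ e := by exact_mod_cast he
      rw [Ga_step, mul_pow]
      push_cast
      set t : ℝ := (e : ℝ) with ht
      have h3 : 0 < t - 3 := by linarith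
      have h1 : 0 < t - 1 := by linarith
      -- the step for the right sides
      have hb1 := bern (x := 2 / (t - 3)) (by positivity) e
      have hb2 := bern (x := 2 / (t + 2)) (by positivity) e
      rw [← ht] at hb1 hb2
      have e1 : 1 + t * (2 / (t - 3)) + t * (t - 1) * (2 / (t - 3)) ^ 2 / 2 =
          (5 * t - 9) * (t - 1) / (t - 3) ^ 2 := by
        field_simp
        ring
      have e2 : 1 + t * (2 / (t + 2)) + t * (t - 1) * (2 / (t + 2)) ^ 2 / 2 =
          (5 * t ^ 2 + 6 * t + 4) / (t + 2) ^ 2 := by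
        field_simp
        ring
      rw [e1] at hb1
      rw [e2] at hb2
      have e3 : 1 + 2 / (t - 3) = (t - 1) / (t - 3) := by
        field_simp
        ring
      have e4 : 1 + 2 / (t + 2) = (t + 4) / (t + 2) := by
        field_simp
        ring
      rw [e3] at hb1
      rw [e4] at hb2
      have hprod : (5 * t - 9) * (t - 1) / (t - 3) ^ 2 * ((5 * t ^ 2 + 6 * t + 4) / (t + 2) ^ 2) ≤
          ((t - 1) * (t + 4)) ^ e / ((t - 3) * (t + 2)) ^ e := by
        have hA : 0 ≤ (5 * t ^ 2 + 6 * t + 4) / (t + 2) ^ 2 := by positivity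
        have hB : 0 ≤ ((t - 1) / (t - 3)) ^ e := by positivity
        have := mul_le_mul hb1 hb2 hA hB
        refine this.trans (le_of_eq ?_)
        rw [← mul_pow, div_mul_div_comm, div_pow]
      have hpoly : 16 * t ^ 2 * (t + 2) ^ 4 * (t - 3) ≤
          (5 * t - 9) * (t - 1) ^ 2 * (5 * t ^ 2 + 6 * t + 4) * (t + 4) ^ 2 := by
        obtain ⟨s, hs, hst⟩ : ∃ s : ℝ, 0 ≤ s ∧ t = s + 6 := ⟨t - 6, by linarith, by ring⟩
        rw [hst]
        have : 0 ≤ (4472112 : ℝ) + 4887464 * s + 2312112 * s ^ 2 + 606830 * s ^ 3 + 94555 * s ^ 4 +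
          8685 * s ^ 5 + 433 * s ^ 6 + 9 * s ^ 7 := by positivity
        nlinarith
      set Z := (((t - 3) * (t + 2)) / 16) ^ e with hZ
      have hZpos : 0 < Z := by positivity
      have hW : ((5 * t - 9) * (t - 1) / (t - 3) ^ 2 * ((5 * t ^ 2 + 6 * t + 4) / (t + 2) ^ 2)) *
          Z ≤ ((t - 1) * (t + 4) / 16) ^ e := by
        have h5 : ((t - 1) * (t + 4) / 16) ^ e =
            ((t - 1) * (t + 4)) ^ e / ((t - 3) * (t + 2)) ^ e * Z := by
          rw [hZ, div_pow, div_pow]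
          have : ((t - 3) * (t + 2)) ^ e ≠ 0 := by positivity
          field_simp
        rw [h5]
        exact mul_le_mul_of_nonneg_right hprod hZpos.le
      have hfin : ((t + 2) / 2) ^ 4 * (Z * (t ^ 2 / (t - 3))) ≤
          ((t + 2 - 3) * (t + 2 + 2) / 16) ^ (e + 2) * ((t + 2) ^ 2 / (t + 2 - 3)) := by
        have e5 : t + 2 - 3 = t - 1 := by ring
        have e6 : t + 2 + 2 = t + 4 := by ring
        rw [e5, e6, pow_add]
        refine le_trans ?_ (mul_le_mul_of_nonneg_right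
          (mul_le_mul_of_nonneg_right hW (by positivity)) (by positivity))
        have h6 : ((t + 2) / 2) ^ 4 * (Z * (t ^ 2 / (t - 3))) =
            Z * ((t + 2) ^ 4 * t ^ 2 / (16 * (t - 3))) := by
          field_simp
          ring
        have h7 : (5 * t - 9) * (t - 1) / (t - 3) ^ 2 * ((5 * t ^ 2 + 6 * t + 4) / (t + 2) ^ 2) *
            Z * ((t - 1) * (t + 4) / 16) ^ 2 * ((t + 2) ^ 2 / (t - 1)) =
            Z * ((5 * t - 9) * (t - 1) ^ 2 * (5 * t ^ 2 + 6 * t + 4) * (t + 4) ^ 2 /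
              (256 * (t - 3) ^ 2)) := by
          field_simp
          ring
        rw [h6, h7]
        apply mul_le_mul_of_nonneg_left _ hZpos.le
        rw [div_le_div_iff₀ (by positivity) (by positivity)]
        have h8 := mul_le_mul_of_nonneg_right hpoly (by positivity : 0 ≤ 16 * (t - 3))
        nlinarith
      have h9 : 0 ≤ ((t + 2) / 2) ^ 4 := by positivity
      have h10 : 0 ≤ Real.pi ^ 2 := by positivity
      calc ((t + 2) / 2) ^ 4 * Ga e ^ 4
          ≤ ((t + 2) / 2) ^ 4 * (Z * (t ^ 2 / (t - 3)) * Real.pi ^ 2) :=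
            mul_le_mul_of_nonneg_left hih h9
        _ = ((t + 2) / 2) ^ 4 * (Z * (t ^ 2 / (t - 3))) * Real.pi ^ 2 := by ring
        _ ≤ _ := mul_le_mul_of_nonneg_right hfin h10

theorem CC_pow {d : ℕ} (hd : 4 ≤ d) : CC d (sg d) ^ d =
    ((d : ℝ) * (d - 3) / 4) ^ d * (Real.pi ^ 2 / (d - 3)) * ((d : ℝ) ^ 2 * (Real.pi ^ d / Ga d ^ 2)) := by
  have hd0 : 0 < d := by omega
  have hd' : (4 : ℝ) ≤ d := by exact_mod_cast hd
  have h3 : (0 : ℝ) < (d : ℝ) - 3 := by linarith
  have hσ := sg_pos hd0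
  have hπ := Real.pi_pos
  have e1 := pow_frac (x := Real.pi ^ 2 / ((d : ℝ) - 3)) (by positivity) hd0 1
  have e2 := pow_frac hσ.le hd0 2
  simp only [Nat.cast_one, Nat.cast_ofNat, pow_one] at e1 e2
  unfold CC
  rw [mul_pow _ (sg d ^ (2 / (d : ℝ))) d, mul_pow _ ((Real.pi ^ 2 / ((d : ℝ) - 3)) ^ (1 / (d : ℝ))) d,
    e1, e2]
  unfold sg
  rw [mul_pow _ (om d) 2, om_sq hd0]

theorem Kcl_pow {d : ℕ} (hd : 0 < d) : Kcl d ^ d =
    ((d : ℝ) / (d + 2)) ^ d * 4 ^ d * Real.pi ^ d * Ga d ^ 2 := by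
  have hω := om_pos d
  have hπ := Real.pi_pos
  have hG := Ga_pos d
  have e3 := pow_frac hω.le hd 2
  simp only [Nat.cast_ofNat] at e3
  unfold Kcl
  rw [mul_pow _ _ d, div_pow ((2 * Real.pi) ^ 2) _ d, e3, om_sq hd]
  have key : ((2 * Real.pi) ^ 2) ^ d = (4 : ℝ) ^ d * (Real.pi ^ d * Real.pi ^ d) := by
    rw [← mul_pow, ← mul_pow]
    congr 1
    ring
  rw [key]
  have : Real.pi ^ d ≠ 0 := by positivity
  field_simp

/-- the semiclassical constant is at most the constant for radial systems if `d ≥ 6` -/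
theorem Kcl_le {d : ℕ} (hd : 6 ≤ d) : Kcl d ≤ CC d (sg d) := by
  have hd0 : 0 < d := by omega
  have hd' : (6 : ℝ) ≤ d := by exact_mod_cast hd
  have h3 : (0 : ℝ) < (d : ℝ) - 3 := by linarith
  have hσ := sg_pos hd0
  have hπ := Real.pi_pos
  have hG := Ga_pos d
  have h0 : 0 ≤ CC d (sg d) := by unfold CC; positivity
  apply le_of_pow_le_pow_left₀ hd0.ne' h0
  rw [Kcl_pow hd0, CC_pow (by omega)]
  have hb := Ga_bound d hd
  have hk : ((d : ℝ) / (d + 2)) ^ d * 4 ^ d * ((((d : ℝ) - 3) * (d + 2)) / 16) ^ d =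
      ((d : ℝ) * (d - 3) / 4) ^ d := by
    rw [← mul_pow, ← mul_pow]
    congr 1
    field_simp
    ring
  have h1 : ((d : ℝ) / (d + 2)) ^ d * 4 ^ d * Real.pi ^ d * Ga d ^ 2 =
      ((d : ℝ) / (d + 2)) ^ d * 4 ^ d * (Real.pi ^ d / Ga d ^ 2) * Ga d ^ 4 := by
    field_simp
  rw [h1]
  calc ((d : ℝ) / (d + 2)) ^ d * 4 ^ d * (Real.pi ^ d / Ga d ^ 2) * Ga d ^ 4
      ≤ ((d : ℝ) / (d + 2)) ^ d * 4 ^ d * (Real.pi ^ d / Ga d ^ 2) *
        (((((d : ℝ) - 3) * (d + 2)) / 16) ^ d * (d ^ 2 / (d - 3)) * Real.pi ^ 2) :=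
        mul_le_mul_of_nonneg_left hb (by positivity)
    _ = (((d : ℝ) / (d + 2)) ^ d * 4 ^ d * ((((d : ℝ) - 3) * (d + 2)) / 16) ^ d) *
        (Real.pi ^ 2 / (d - 3)) * ((d : ℝ) ^ 2 * (Real.pi ^ d / Ga d ^ 2)) := by ring
    _ = _ := by rw [hk]

/-- a Stirling bound -/
theorem Ga_sq (d : ℕ) (hd : 4 ≤ d) :
    Ga d ^ 2 ≤ Real.pi ^ 2 * ((d : ℝ) ^ (d + 1) / (2 * Real.exp 1) ^ d) := by
  induction d using Nat.strong_induction_on with
  | _ d ih =>
    have hπ := Real.pi_gt_three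
    have he := Real.exp_one_lt_d9
    have he0 := Real.exp_pos 1
    rcases Nat.lt_or_ge d 6 with h6 | h6
    · have hs : √Real.pi ^ 2 = Real.pi := Real.sq_sqrt Real.pi_pos.le
      have h2e : 2 * Real.exp 1 ≤ 5.44 := by linarith
      have hπ4 : Real.pi ≤ 4 := Real.pi_le_four
      interval_cases d
      · rw [Ga_four]
        have h7 : (2 * Real.exp 1) ^ 4 ≤ 5.44 ^ 4 := pow_le_pow_left₀ (by positivity) h2e 4
        rw [← mul_div_assoc, le_div_iff₀ (by positivity)]
        push_cast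
        norm_num at h7 ⊢
        nlinarith
      · rw [Ga_five]
        have h7 : (2 * Real.exp 1) ^ 5 ≤ 5.44 ^ 5 := pow_le_pow_left₀ (by positivity) h2e 5
        rw [← mul_div_assoc, le_div_iff₀ (by positivity), mul_pow, mul_pow, hs]
        push_cast
        norm_num at h7 ⊢
        have h8 : 225 / 64 * Real.pi * (2 * Real.exp 1) ^ 5 ≤
            225 / 64 * Real.pi * (1419857 / 298) := by
          apply mul_le_mul_of_nonneg_left _ (by positivity)
          refine h7.trans ?_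
          norm_num
        nlinarith
    · obtain ⟨e, rfl⟩ : ∃ e, d = e + 2 := ⟨d - 2, by omega⟩
      have hih := ih e (by omega) (by omega)
      have he4 : (4 : ℝ) ≤ e := by
        have : 4 ≤ e := by omega
        exact_mod_cast this
      rw [Ga_step, mul_pow]
      push_cast
      have hlog := Real.le_log_one_add_of_nonneg (x := 2 / (e : ℝ)) (by positivity)
      have h1 : 2 * (2 / (e : ℝ)) / (2 / (e : ℝ) + 2) = 2 / (e + 1) := by
        field_simp
        ring
      rw [h1] at hlog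
      have h2 : Real.exp 1 ^ 2 ≤ (1 + 2 / (e : ℝ)) ^ (e + 1) := by
        rw [← Real.exp_log (show 0 < (1 + 2 / (e : ℝ)) ^ (e + 1) by positivity), ← Real.exp_nat_mul,
          Real.exp_le_exp, Real.log_pow]
        push_cast
        rw [div_le_iff₀ (by positivity)] at hlog
        linarith
      have h3 : (1 + 2 / (e : ℝ)) ^ (e + 1) = ((e : ℝ) + 2) ^ (e + 1) / (e : ℝ) ^ (e + 1) := by
        rw [← div_pow]
        congr 1
        field_simp
      rw [h3, le_div_iff₀ (by positivity)] at h2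
      calc (((e : ℝ) + 2) / 2) ^ 2 * Ga e ^ 2
          ≤ (((e : ℝ) + 2) / 2) ^ 2 *
            (Real.pi ^ 2 * ((e : ℝ) ^ (e + 1) / (2 * Real.exp 1) ^ e)) :=
            mul_le_mul_of_nonneg_left hih (by positivity)
        _ = Real.pi ^ 2 * (((e : ℝ) + 2) ^ 2 * (Real.exp 1 ^ 2 * (e : ℝ) ^ (e + 1)) /
            (2 * Real.exp 1) ^ (e + 2)) := by
            rw [pow_add (2 * Real.exp 1) e 2]
            field_simp
        _ ≤ Real.pi ^ 2 * (((e : ℝ) + 2) ^ 2 * ((e : ℝ) + 2) ^ (e + 1) /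
            (2 * Real.exp 1) ^ (e + 2)) := by
            apply mul_le_mul_of_nonneg_left _ (by positivity)
            apply div_le_div_of_nonneg_right _ (by positivity)
            exact mul_le_mul_of_nonneg_left h2 (by positivity)
        _ = _ := by
            rw [← pow_add]
            congr 3
            ring

/-- the size of the constant for radial systems -/
theorem CC_ge {d : ℕ} (hd : 4 ≤ d) : Real.pi * Real.exp 1 / 2 * (d - 3) ≤ CC d (sg d) := by
  have hd0 : 0 < d := by omega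
  have hd' : (4 : ℝ) ≤ d := by exact_mod_cast hd
  have h3 : (0 : ℝ) < (d : ℝ) - 3 := by linarith
  have hσ := sg_pos hd0
  have hπ := Real.pi_pos
  have hG := Ga_pos d
  have he0 := Real.exp_pos 1
  have h0 : 0 ≤ CC d (sg d) := by unfold CC; positivity
  apply le_of_pow_le_pow_left₀ hd0.ne' h0
  rw [CC_pow hd]
  have hb := Ga_sq d hd
  have h1 : (Real.pi * Real.exp 1 / 2 * (d - 3)) ^ d * Ga d ^ 2 ≤
      ((d : ℝ) * (d - 3) / 4) ^ d * (Real.pi ^ 2 / (d - 3)) * ((d : ℝ) ^ 2 * Real.pi ^ d) := by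
    calc (Real.pi * Real.exp 1 / 2 * (d - 3)) ^ d * Ga d ^ 2
        ≤ (Real.pi * Real.exp 1 / 2 * (d - 3)) ^ d *
          (Real.pi ^ 2 * ((d : ℝ) ^ (d + 1) / (2 * Real.exp 1) ^ d)) :=
          mul_le_mul_of_nonneg_left hb (by positivity)
      _ = (Real.pi * Real.exp 1 / 2 * (d - 3) / (2 * Real.exp 1)) ^ d *
          (Real.pi ^ 2 * (d : ℝ) ^ (d + 1)) := by
          rw [div_pow _ (2 * Real.exp 1) d]
          ring
      _ = ((d : ℝ) * (d - 3) / 4) ^ d * Real.pi ^ d * (Real.pi ^ 2 * d) := by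
          have e1 : Real.pi * Real.exp 1 / 2 * (d - 3) / (2 * Real.exp 1) =
              Real.pi * ((d - 3) / 4) := by
            field_simp
            ring
          rw [e1, mul_pow, pow_succ]
          have e2 : ((d : ℝ) * (d - 3) / 4) ^ d = (d : ℝ) ^ d * ((d - 3) / 4) ^ d := by
            rw [← mul_pow]
            congr 1
            ring
          rw [e2]
          ring
      _ ≤ ((d : ℝ) * (d - 3) / 4) ^ d * Real.pi ^ d * (Real.pi ^ 2 * (d ^ 2 / (d - 3))) := by
          apply mul_le_mul_of_nonneg_left _ (by positivity)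
          apply mul_le_mul_of_nonneg_left _ (by positivity)
          rw [le_div_iff₀ h3]
          nlinarith
      _ = _ := by ring
  have h2 : ((d : ℝ) * (d - 3) / 4) ^ d * (Real.pi ^ 2 / (d - 3)) *
      ((d : ℝ) ^ 2 * (Real.pi ^ d / Ga d ^ 2)) =
      (((d : ℝ) * (d - 3) / 4) ^ d * (Real.pi ^ 2 / (d - 3)) * ((d : ℝ) ^ 2 * Real.pi ^ d)) /
        Ga d ^ 2 := by
    ring
  rw [h2, le_div_iff₀ (by positivity)]
  exact h1

end Pool.Agent.R117.RL
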