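import Pool.Agent.R117.RL.Rad

/-!
Orthonormal systems of radial functions on Euclidean space.
-/

open MeasureTheory Set Filter Topology
open scoped InnerProductSpace

namespace Pool.Agent.R117.RL

/-- `|∇u|²`, the sum of the squares of the absolute values of the partial derivatives -/
noncomputable def grad2 {d : ℕ} (u : E d → ℂ) (x : E d) : ℝ :=
  ∑ i, ‖fderiv ℝ u x (EuclideanSpace.single i 1)‖ ^ 2

/-- An orthonormal system of radial functions which are continuously differentiable away from the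
origin and have finite kinetic energy. -/
structure RadialSystem {d N : ℕ} (u : Fin N → E d → ℂ) : Prop where
  radial : ∀ n x y, ‖x‖ = ‖y‖ → u n x = u n y
  smooth : ∀ n, ContDiffOn ℝ 1 (u n) {0}ᶜ
  square : ∀ n, Integrable (fun x => ‖u n x‖ ^ 2)
  energy : ∀ n, Integrable (grad2 (u n))
  orthonormal : ∀ n m, ∫ x, star (u n x) * u m x = if n = m then (1 : ℂ) else 0

/-- a unit vector -/
noncomputable def e1 (k : ℕ) : E (k + 1) := EuclideanSpace.single 0 1

theorem norm_e1 (k : ℕ) : ‖e1 k‖ = 1 := by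
  unfold e1
  rw [EuclideanSpace.norm_single, norm_one]

/-- the derivative of the norm -/
theorem norm_deriv {d : ℕ} {x : E d} (hx : x ≠ 0) :
    HasFDerivAt (fun y : E d => ‖y‖) ((1 / ‖x‖) • innerSL ℝ x) x := by
  have h1 := ((hasStrictFDerivAt_norm_sq x).hasFDerivAt).sqrt (pow_ne_zero 2 (norm_ne_zero_iff.2 hx))
  have h2 : (fun y : E d => √(‖y‖ ^ 2)) = fun y => ‖y‖ := by
    funext y
    exact Real.sqrt_sq (norm_nonneg y)
  rw [h2, Real.sqrt_sq (norm_nonneg x)] at h1
  have h3 : (1 / (2 * ‖x‖)) • (2 • innerSL ℝ x) = (1 / ‖x‖) • innerSL ℝ x := by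
    have h0 := norm_ne_zero_iff.2 hx
    rw [two_nsmul, smul_add, ← add_smul]
    congr 1
    field_simp
    norm_num
  rwa [h3] at h1

/-- the gradient of a radial function -/
theorem grad_radial {d : ℕ} {F : ℝ → ℂ} {F' : ℂ} {x : E d} (hx : x ≠ 0)
    (hF : HasDerivAt F F' ‖x‖) : grad2 (fun y => F ‖y‖) x = ‖F'‖ ^ 2 := by
  have h1 : HasFDerivAt (fun y : E d => F ‖y‖)
      ((ContinuousLinearMap.toSpanSingleton ℝ F').comp ((1 / ‖x‖) • innerSL ℝ x)) x :=
    hF.hasFDerivAt.comp x (norm_deriv hx)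
  have h0 := norm_ne_zero_iff.2 hx
  unfold grad2
  rw [h1.fderiv]
  have h2 : ∀ i : Fin d, ‖((ContinuousLinearMap.toSpanSingleton ℝ F').comp
      ((1 / ‖x‖) • innerSL ℝ x)) (EuclideanSpace.single i 1)‖ ^ 2 =
      (x i) ^ 2 * (‖F'‖ ^ 2 / ‖x‖ ^ 2) := by
    intro i
    rw [ContinuousLinearMap.comp_apply, ContinuousLinearMap.toSpanSingleton_apply,
      ContinuousLinearMap.smul_apply, innerSL_apply_apply, norm_smul, mul_pow, Real.norm_eq_abs,
      sq_abs]
    have h3 : ⟪x, EuclideanSpace.single i (1 : ℝ)⟫_ℝ = x i := by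
      rw [EuclideanSpace.inner_single_right]
      simp
    rw [h3, smul_eq_mul]
    field_simp
  rw [Finset.sum_congr rfl fun i _ => h2 i, ← Finset.sum_mul, ← EuclideanSpace.real_norm_sq_eq]
  field_simp

theorem profile {k : ℕ} {u : E (k + 1) → ℂ} (hr : ∀ x y, ‖x‖ = ‖y‖ → u x = u y)
    (x : E (k + 1)) : u x = u (‖x‖ • e1 k) := by
  apply hr
  rw [norm_smul, norm_e1, mul_one, norm_norm]

theorem profile_deriv {k : ℕ} {u : E (k + 1) → ℂ} (hC : ContDiffOn ℝ 1 u {0}ᶜ) {r : ℝ}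
    (hr : 0 < r) : HasDerivAt (fun t : ℝ => u (t • e1 k)) (fderiv ℝ u (r • e1 k) (e1 k)) r := by
  have hne : r • e1 k ≠ 0 := by
    rw [ne_eq, smul_eq_zero, not_or]
    exact ⟨hr.ne', fun h => by
      have := norm_e1 k
      rw [h, norm_zero] at this
      exact zero_ne_one this⟩
  have h1 : DifferentiableAt ℝ u (r • e1 k) :=
    (hC.differentiableOn one_ne_zero).differentiableAt (isOpen_compl_singleton.mem_nhds hne)
  have h2 : HasDerivAt (fun t : ℝ => t • e1 k) (e1 k) r := by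
    have h3 := (hasDerivAt_id r).smul_const (e1 k)
    rw [one_smul] at h3
    exact h3
  exact h1.hasFDerivAt.comp_hasDerivAt r h2

theorem profile_cont {k : ℕ} {u : E (k + 1) → ℂ} (hC : ContDiffOn ℝ 1 u {0}ᶜ) :
    ContinuousOn (fun r : ℝ => fderiv ℝ u (r • e1 k) (e1 k)) (Ioi 0) := by
  have h1 : ContinuousOn (fderiv ℝ u) {0}ᶜ :=
    hC.continuousOn_fderiv_of_isOpen isOpen_compl_singleton le_rfl
  have h2 : ContinuousOn (fun r : ℝ => r • e1 k) (Ioi 0) :=
    (continuous_id.smul continuous_const).continuousOn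
  have h3 : MapsTo (fun r : ℝ => r • e1 k) (Ioi 0) {0}ᶜ := by
    intro r hr
    rw [mem_compl_iff, mem_singleton_iff, smul_eq_zero, not_or]
    exact ⟨ne_of_gt hr, fun h => by
      have := norm_e1 k
      rw [h, norm_zero] at this
      exact zero_ne_one this⟩
  exact (h1.comp h2 h3).clm_apply continuousOn_const

/-- the kinetic inequality for radial systems -/
theorem radial_system {k N : ℕ} (hk : 3 ≤ k) (u : Fin N → E (k + 1) → ℂ) (h : RadialSystem u) :
    Integrable (fun x : E (k + 1) => (∑ n, ‖u n x‖ ^ 2) ^ (1 + 2 / ((k + 1 : ℕ) : ℝ))) ∧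
    CC (k + 1) (sg (k + 1)) *
      (∫ x : E (k + 1), (∑ n, ‖u n x‖ ^ 2) ^ (1 + 2 / ((k + 1 : ℕ) : ℝ))) ≤
      ∑ n, ∫ x, grad2 (u n) x := by
  set F : Fin N → ℝ → ℂ := fun n r => u n (r • e1 k) with hF
  set F' : Fin N → ℝ → ℂ := fun n r => fderiv ℝ (u n) (r • e1 k) (e1 k) with hF'
  have hu : ∀ n x, u n x = F n ‖x‖ := fun n x => profile (h.radial n) x
  have hd : ∀ n r, 0 < r → HasDerivAt (F n) (F' n r) r := fun n r hr =>
    profile_deriv (h.smooth n) hr
  have hg : ∀ n, grad2 (u n) =ᵐ[volume] fun x => ‖F' n ‖x‖‖ ^ 2 := by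
    intro n
    have h1 : ∀ᵐ x : E (k + 1), x ≠ 0 := by
      rw [ae_iff]
      simp
    filter_upwards [h1] with x hx
    have h2 : u n = fun y => F n ‖y‖ := funext (hu n)
    rw [h2]
    exact grad_radial hx (hd n ‖x‖ (norm_pos_iff.2 hx))
  have hmain := radial hk F F' hd (fun n => profile_cont (h.smooth n))
    (fun n => by
      have := h.square n
      simp only [hu n] at this
      exact this)
    (fun n => (h.energy n).congr (hg n))
    (fun n m => by
      have := h.orthonormal n m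
      simp only [hu n, hu m] at this
      exact this)
  have e1 : (fun x : E (k + 1) => (∑ n, ‖u n x‖ ^ 2) ^ (1 + 2 / ((k + 1 : ℕ) : ℝ))) =
      fun x => (∑ n, ‖F n ‖x‖‖ ^ 2) ^ (1 + 2 / ((k + 1 : ℕ) : ℝ)) := by
    funext x
    simp only [hu]
  rw [e1]
  refine ⟨hmain.1, hmain.2.trans (le_of_eq ?_)⟩
  exact Finset.sum_congr rfl fun n _ => (integral_congr_ae (hg n)).symm

end Pool.Agent.R117.RL
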