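import Pool.Agent.R117.RL.Full

/-!
The Gaussian function as a radial system of one function.
-/

open MeasureTheory Set Filter Topology
open scoped InnerProductSpace

namespace Pool.Agent.R117.RL

theorem gauss_int (k : ℕ) {b : ℝ} (hb : 0 < b) :
    ∫ x : E (k + 1), Real.exp (-b * ‖x‖ ^ 2) = (Real.pi / b) ^ (((k + 1 : ℕ) : ℝ) / 2) := by
  have h1 := GaussianFourier.integral_rexp_neg_mul_sq_norm (V := E (k + 1)) hb
  rwa [finrank_euclideanSpace_fin] at h1

theorem half_int (q : ℕ) :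
    ∫ y in Ioi (0 : ℝ), y ^ q * Real.exp (-y ^ 2) = 1 / 2 * Real.Gamma (((q : ℝ) + 1) / 2) := by
  have h1 := integral_rpow_mul_exp_neg_rpow (p := 2) (q := (q : ℝ)) two_pos
    (by have : (0 : ℝ) ≤ q := Nat.cast_nonneg q
        linarith)
  simp only [Real.rpow_natCast, Real.rpow_two] at h1
  exact h1

/-- the integral of the Gaussian -/
noncomputable def gA (k : ℕ) : ℝ := Real.pi ^ (((k + 1 : ℕ) : ℝ) / 2)

theorem gA_pos (k : ℕ) : 0 < gA k := Real.rpow_pos_of_pos Real.pi_pos _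

theorem gauss_one (k : ℕ) : ∫ x : E (k + 1), Real.exp (-‖x‖ ^ 2) = gA k := by
  have h1 := gauss_int k one_pos
  rw [div_one] at h1
  unfold gA
  rw [← h1]
  congr 1
  funext x
  congr 1
  ring

theorem gauss_moment (k : ℕ) :
    ∫ x : E (k + 1), ‖x‖ ^ 2 * Real.exp (-‖x‖ ^ 2) = ((k : ℝ) + 1) / 2 * gA k := by
  have h1 := polar (k := k) (fun y : ℝ => y ^ 2 * Real.exp (-y ^ 2))
  have h2 := polar (k := k) (fun y : ℝ => Real.exp (-y ^ 2))
  have h3 : ∀ y : ℝ, y ^ k • (y ^ 2 * Real.exp (-y ^ 2)) = y ^ (k + 2) * Real.exp (-y ^ 2) := by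
    intro y
    rw [smul_eq_mul, pow_add]
    ring
  simp only [h3, smul_eq_mul, half_int] at h1 h2
  rw [gauss_one] at h2
  have h4 : (((k + 2 : ℕ) : ℝ) + 1) / 2 = ((k : ℝ) + 1) / 2 + 1 := by push_cast; ring
  rw [h4, Real.Gamma_add_one (by positivity)] at h1
  rw [h1, h2]
  ring

/-- the normalized Gaussian -/
noncomputable def gs (k : ℕ) (x : E (k + 1)) : ℂ :=
  (((√(gA k))⁻¹ * Real.exp (-‖x‖ ^ 2 / 2) : ℝ) : ℂ)

theorem gs_sq (k : ℕ) (x : E (k + 1)) : ‖gs k x‖ ^ 2 = (gA k)⁻¹ * Real.exp (-‖x‖ ^ 2) := by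
  unfold gs
  rw [Complex.norm_real, Real.norm_eq_abs, sq_abs, mul_pow, inv_pow, Real.sq_sqrt (gA_pos k).le,
    ← Real.exp_nat_mul]
  congr 2
  push_cast
  ring

theorem gs_grad (k : ℕ) {x : E (k + 1)} (hx : x ≠ 0) :
    grad2 (gs k) x = (gA k)⁻¹ * (‖x‖ ^ 2 * Real.exp (-‖x‖ ^ 2)) := by
  have h1 : HasDerivAt (fun r : ℝ => (√(gA k))⁻¹ * Real.exp (-r ^ 2 / 2))
      ((√(gA k))⁻¹ * (Real.exp (-‖x‖ ^ 2 / 2) * (-(2 * ‖x‖) / 2))) ‖x‖ := by
    apply HasDerivAt.const_mul
    apply HasDerivAt.exp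
    apply HasDerivAt.div_const
    apply HasDerivAt.fun_neg
    have := hasDerivAt_pow 2 ‖x‖
    simpa using this
  have h2 := h1.ofReal_comp
  have h3 := grad_radial hx h2
  have h4 : gs k = fun y : E (k + 1) => (((√(gA k))⁻¹ * Real.exp (-‖y‖ ^ 2 / 2) : ℝ) : ℂ) := rfl
  rw [h4, h3, Complex.norm_real, Real.norm_eq_abs, sq_abs, mul_pow, mul_pow, inv_pow,
    Real.sq_sqrt (gA_pos k).le, ← Real.exp_nat_mul]
  have h5 : ((2 : ℕ) : ℝ) * (-‖x‖ ^ 2 / 2) = -‖x‖ ^ 2 := by push_cast; ring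
  rw [h5]
  ring

theorem integrable_of_pos {α : Type} [MeasurableSpace α] {μ : Measure α} {f : α → ℝ}
    (h : 0 < ∫ x, f x ∂μ) : Integrable f μ := by
  by_contra hf
  rw [integral_undef hf] at h
  exact lt_irrefl _ h

theorem gs_system (k : ℕ) : RadialSystem (N := 1) (fun _ => gs k) := by
  have hA := gA_pos k
  have hI1 : Integrable (fun x : E (k + 1) => Real.exp (-‖x‖ ^ 2)) := by
    apply integrable_of_pos
    rw [gauss_one]
    exact hA
  have hI2 : Integrable (fun x : E (k + 1) => ‖x‖ ^ 2 * Real.exp (-‖x‖ ^ 2)) := by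
    apply integrable_of_pos
    rw [gauss_moment]
    positivity
  constructor
  · intro _ x y hxy
    unfold gs
    rw [hxy]
  · intro _
    apply ContDiff.contDiffOn
    unfold gs
    apply Complex.ofRealCLM.contDiff.comp
    apply contDiff_const.mul
    apply Real.contDiff_exp.comp
    apply ContDiff.div_const
    exact (contDiff_norm_sq ℝ).neg
  · intro _
    simp only [gs_sq]
    exact hI1.const_mul _
  · intro _
    have h1 : ∀ᵐ x : E (k + 1), x ≠ 0 := by
      rw [ae_iff]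
      simp
    refine (hI2.const_mul (gA k)⁻¹).congr ?_
    filter_upwards [h1] with x hx
    exact (gs_grad k hx).symm
  · intro n m
    rw [if_pos (Subsingleton.elim n m)]
    have h1 : ∀ x : E (k + 1), star (gs k x) * gs k x = ((‖gs k x‖ ^ 2 : ℝ) : ℂ) := by
      intro x
      rw [← Complex.normSq_eq_norm_sq, mul_comm]
      exact Complex.mul_conj _
    simp only [h1]
    rw [integral_complex_ofReal]
    simp only [gs_sq]
    rw [integral_const_mul, gauss_one, inv_mul_cancel₀ hA.ne']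
    simp

/-- no constant larger than `(π e / 2) d` is admissible, even for one radial function -/
theorem upper (k : ℕ) {K : ℝ}
    (h : ∀ u : Fin 1 → E (k + 1) → ℂ, RadialSystem u →
      K * (∫ x : E (k + 1), (∑ n, ‖u n x‖ ^ 2) ^ (1 + 2 / ((k + 1 : ℕ) : ℝ))) ≤
        ∑ n, ∫ x, grad2 (u n) x) :
    K ≤ Real.pi * Real.exp 1 / 2 * ((k + 1 : ℕ) : ℝ) := by
  have hA := gA_pos k
  have hπ := Real.pi_pos
  set D : ℝ := ((k + 1 : ℕ) : ℝ) with hD
  have hD0 : 0 < D := by rw [hD]; positivity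
  have h1 := h (fun _ => gs k) (gs_system k)
  simp only [Finset.univ_unique, Finset.sum_singleton, gs_sq] at h1
  have h2 : ∫ x, grad2 (gs k) x = D / 2 := by
    have h3 : ∀ᵐ x : E (k + 1), grad2 (gs k) x = (gA k)⁻¹ * (‖x‖ ^ 2 * Real.exp (-‖x‖ ^ 2)) := by
      have h1 : ∀ᵐ x : E (k + 1), x ≠ 0 := by
        rw [ae_iff]
        simp
      filter_upwards [h1] with x hx
      exact gs_grad k hx
    rw [integral_congr_ae h3, integral_const_mul, gauss_moment, hD]
    push_cast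
    field_simp
  rw [h2] at h1
  set p : ℝ := 1 + 2 / D with hp
  have hp0 : 0 < p := by positivity
  have h4 : ∀ x : E (k + 1), ((gA k)⁻¹ * Real.exp (-‖x‖ ^ 2)) ^ p =
      (gA k)⁻¹ ^ p * Real.exp (-p * ‖x‖ ^ 2) := by
    intro x
    rw [Real.mul_rpow (inv_nonneg.2 hA.le) (Real.exp_pos _).le, ← Real.exp_mul]
    congr 2
    ring
  simp only [h4] at h1
  rw [integral_const_mul, gauss_int k hp0, ← hD] at h1
  have h5 : (gA k)⁻¹ ^ p * (Real.pi / p) ^ (D / 2) = Real.pi⁻¹ * (p ^ (D / 2))⁻¹ := by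
    unfold gA
    rw [← hD, Real.div_rpow hπ.le hp0.le, Real.inv_rpow (Real.rpow_nonneg hπ.le _),
      ← Real.rpow_mul hπ.le]
    have h6 : D / 2 * p = D / 2 + 1 := by
      rw [hp]
      field_simp
    rw [h6, Real.rpow_add hπ, Real.rpow_one]
    have : Real.pi ^ (D / 2) ≠ 0 := (Real.rpow_pos_of_pos hπ _).ne'
    field_simp
  rw [h5] at h1
  have h7 : p ^ (D / 2) ≤ Real.exp 1 := by
    have h8 : p ≤ Real.exp (2 / D) := by
      have := Real.add_one_le_exp (2 / D)
      rw [hp]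
      linarith
    calc p ^ (D / 2) ≤ Real.exp (2 / D) ^ (D / 2) :=
          Real.rpow_le_rpow hp0.le h8 (by positivity)
      _ = Real.exp 1 := by
          rw [← Real.exp_mul]
          congr 1
          field_simp
  have hpp : 0 < p ^ (D / 2) := Real.rpow_pos_of_pos hp0 _
  rcases le_or_gt K 0 with hK | hK
  · exact hK.trans (by positivity)
  · have h9 : K ≤ D / 2 * (Real.pi * p ^ (D / 2)) := by
      have h10 : K * (Real.pi⁻¹ * (p ^ (D / 2))⁻¹) = K / (Real.pi * p ^ (D / 2)) := by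
        field_simp
      rw [h10, div_le_iff₀ (by positivity)] at h1
      exact h1
    calc K ≤ D / 2 * (Real.pi * p ^ (D / 2)) := h9
      _ ≤ D / 2 * (Real.pi * Real.exp 1) := by
          apply mul_le_mul_of_nonneg_left _ (by positivity)
          exact mul_le_mul_of_nonneg_left h7 hπ.le
      _ = _ := by ring

end Pool.Agent.R117.RL
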