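import Mathlib

/-!
Functions on the half line: the energy with a centrifugal term.
-/

open MeasureTheory Set Filter Topology
open scoped InnerProductSpace

namespace Pool.Agent.R117.RL

/-- integrable functions are at most one somewhere far out -/
theorem exists_small {h : ℝ → ℝ} (h2 : IntegrableOn h (Ioi 0)) (B : ℝ) :
    ∃ b, B < b ∧ 0 < b ∧ h b ≤ 1 := by
  by_contra hcon
  push Not at hcon
  have h3 : ∀ b ∈ Ioi (max B 0), 1 < h b := fun b hb =>
    hcon b (lt_of_le_of_lt (le_max_left _ _) hb) (lt_of_le_of_lt (le_max_right _ _) hb)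
  have h4 : IntegrableOn h (Ioi (max B 0)) := h2.mono_set (Ioi_subset_Ioi (le_max_right _ _))
  have h5 : IntegrableOn (fun _ => (1 : ℝ)) (Ioi (max B 0)) := by
    refine Integrable.mono' h4 aestronglyMeasurable_const ?_
    refine (ae_restrict_mem measurableSet_Ioi).mono fun b hb => ?_
    rw [norm_one]
    exact (h3 b hb).le
  rw [integrableOn_const_iff] at h5
  simp at h5

theorem ident {α : ℝ} {f f' : ℝ → ℂ} (hf : ∀ r, 0 < r → HasDerivAt f (f' r) r)
    (hc : ContinuousOn f' (Ioi 0)) {a b : ℝ} (ha : 0 < a) (hab : a ≤ b) :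
    (∫ r in a..b, (‖f' r‖ ^ 2 + (α ^ 2 - α) * (‖f r‖ ^ 2 / r ^ 2))) + α * (‖f a‖ ^ 2 / a) =
      (∫ r in a..b, ‖f' r - (α / r) • f r‖ ^ 2) + α * (‖f b‖ ^ 2 / b) := by
  have hsub : uIcc a b ⊆ Ioi (0 : ℝ) := by
    rw [uIcc_of_le hab]
    intro x hx
    exact lt_of_lt_of_le ha hx.1
  have hcf : ContinuousOn f (uIcc a b) := fun r hr =>
    (hf r (hsub hr)).continuousAt.continuousWithinAt
  have hcf' : ContinuousOn f' (uIcc a b) := hc.mono hsub
  have hne : ∀ r ∈ uIcc a b, r ≠ 0 := fun r hr => (ne_of_gt (hsub hr))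
  have hne2 : ∀ r ∈ uIcc a b, r ^ 2 ≠ 0 := fun r hr => pow_ne_zero 2 (hne r hr)
  have hder : ∀ r ∈ uIcc a b, HasDerivAt (fun r => ‖f r‖ ^ 2 / r)
      ((2 * ⟪f r, f' r⟫_ℝ * r - ‖f r‖ ^ 2 * 1) / r ^ 2) r := fun r hr =>
    ((hf r (hsub hr)).norm_sq).div (hasDerivAt_id r) (hne r hr)
  have hi : ContinuousOn (fun r => (2 * ⟪f r, f' r⟫_ℝ * r - ‖f r‖ ^ 2 * 1) / r ^ 2) (uIcc a b) := by
    apply ContinuousOn.div _ (continuousOn_id.pow 2) hne2
    exact ((continuousOn_const.mul (hcf.inner hcf')).mul continuousOn_id).sub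
      ((hcf.norm.pow 2).mul continuousOn_const)
  have hA : ContinuousOn (fun r => ‖f' r‖ ^ 2 + (α ^ 2 - α) * (‖f r‖ ^ 2 / r ^ 2)) (uIcc a b) :=
    (hcf'.norm.pow 2).add (continuousOn_const.mul ((hcf.norm.pow 2).div (continuousOn_id.pow 2) hne2))
  have hΦ : ContinuousOn (fun r => ‖f' r - (α / r) • f r‖ ^ 2) (uIcc a b) :=
    ((hcf'.sub ((continuousOn_const.div continuousOn_id hne).smul hcf)).norm).pow 2
  have h1 := intervalIntegral.integral_eq_sub_of_hasDerivAt hder hi.intervalIntegrable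
  have h2 : (∫ r in a..b, (‖f' r‖ ^ 2 + (α ^ 2 - α) * (‖f r‖ ^ 2 / r ^ 2))) -
      (∫ r in a..b, ‖f' r - (α / r) • f r‖ ^ 2) =
      α * ∫ r in a..b, (2 * ⟪f r, f' r⟫_ℝ * r - ‖f r‖ ^ 2 * 1) / r ^ 2 := by
    rw [← intervalIntegral.integral_sub hA.intervalIntegrable hΦ.intervalIntegrable,
      ← intervalIntegral.integral_const_mul]
    apply intervalIntegral.integral_congr
    intro r hr
    have hr0 := hne r hr
    have e1 := norm_sub_sq_real (f' r) ((α / r) • f r)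
    rw [inner_smul_right, norm_smul, mul_pow, Real.norm_eq_abs, sq_abs,
      real_inner_comm] at e1
    simp only
    rw [e1]
    field_simp
    ring
  rw [h1] at h2
  linarith

theorem bounds {α : ℝ} (hα : 1 < α) {f f' : ℝ → ℂ} (hf : ∀ r, 0 < r → HasDerivAt f (f' r) r)
    (hc : ContinuousOn f' (Ioi 0)) (h2 : IntegrableOn (fun r => ‖f r‖ ^ 2) (Ioi 0))
    (hφ : IntegrableOn (fun r => ‖f' r - (α / r) • f r‖ ^ 2) (Ioi 0)) {a b : ℝ} (ha : 0 < a)
    (hab : a ≤ b) :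
    (∫ r in a..b, (‖f' r‖ ^ 2 + (α ^ 2 - α) * (‖f r‖ ^ 2 / r ^ 2))) + α * (‖f a‖ ^ 2 / a) ≤
      ∫ r in Ioi 0, ‖f' r - (α / r) • f r‖ ^ 2 := by
  have hcf : ContinuousOn f (Ioi 0) := fun r hr => (hf r hr).continuousAt.continuousWithinAt
  have hαα : 0 < α ^ 2 - α := by nlinarith
  refine le_of_forall_pos_le_add fun ε hε => ?_
  obtain ⟨b', hb1, hb0, hb2⟩ := exists_small h2 (max b (α / ε))
  have hbb : b ≤ b' := (le_max_left _ _).trans hb1.le
  have hbε : α / ε < b' := lt_of_le_of_lt (le_max_right _ _) hb1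
  have h3 := ident (α := α) hf hc ha (hab.trans hbb)
  have hne2 : ∀ r ∈ Ioi (0 : ℝ), r ^ 2 ≠ 0 := fun r hr => pow_ne_zero 2 (ne_of_gt hr)
  have hA : ContinuousOn (fun r => ‖f' r‖ ^ 2 + (α ^ 2 - α) * (‖f r‖ ^ 2 / r ^ 2)) (Ioi 0) :=
    (hc.norm.pow 2).add (continuousOn_const.mul ((hcf.norm.pow 2).div (continuousOn_id.pow 2) hne2))
  have hnn : ∀ r, 0 ≤ ‖f' r‖ ^ 2 + (α ^ 2 - α) * (‖f r‖ ^ 2 / r ^ 2) := fun r => by positivity
  have hint : ∀ {x y : ℝ}, 0 < x → x ≤ y → IntervalIntegrable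
      (fun r => ‖f' r‖ ^ 2 + (α ^ 2 - α) * (‖f r‖ ^ 2 / r ^ 2)) volume x y := by
    intro x y hx hxy
    apply ContinuousOn.intervalIntegrable
    apply hA.mono
    rw [uIcc_of_le hxy]
    intro z hz
    exact lt_of_lt_of_le hx hz.1
  have h4 : (∫ r in a..b, (‖f' r‖ ^ 2 + (α ^ 2 - α) * (‖f r‖ ^ 2 / r ^ 2))) ≤
      ∫ r in a..b', (‖f' r‖ ^ 2 + (α ^ 2 - α) * (‖f r‖ ^ 2 / r ^ 2)) := by
    rw [← intervalIntegral.integral_add_adjacent_intervals (hint ha hab)
      (hint (lt_of_lt_of_le ha hab) hbb)]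
    have : 0 ≤ ∫ r in b..b', (‖f' r‖ ^ 2 + (α ^ 2 - α) * (‖f r‖ ^ 2 / r ^ 2)) :=
      intervalIntegral.integral_nonneg hbb fun r _ => hnn r
    linarith
  have h5 : (∫ r in a..b', ‖f' r - (α / r) • f r‖ ^ 2) ≤
      ∫ r in Ioi 0, ‖f' r - (α / r) • f r‖ ^ 2 := by
    rw [intervalIntegral.integral_of_le (hab.trans hbb)]
    apply setIntegral_mono_set hφ
    · exact Eventually.of_forall fun r => sq_nonneg _
    · exact LE.le.eventuallyLE (fun x hx => lt_trans ha hx.1)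
  have h6 : α * (‖f b'‖ ^ 2 / b') ≤ ε := by
    rw [div_lt_iff₀ hε] at hbε
    rw [← mul_div_assoc, div_le_iff₀ hb0]
    nlinarith
  linarith

theorem limit_zero {α : ℝ} (hα : 1 < α) {f f' : ℝ → ℂ} (hf : ∀ r, 0 < r → HasDerivAt f (f' r) r)
    (hc : ContinuousOn f' (Ioi 0)) (h2 : IntegrableOn (fun r => ‖f r‖ ^ 2) (Ioi 0))
    (hφ : IntegrableOn (fun r => ‖f' r - (α / r) • f r‖ ^ 2) (Ioi 0)) :
    Tendsto f (𝓝[>] 0) (𝓝 0) := by
  set M := ∫ r in Ioi 0, ‖f' r - (α / r) • f r‖ ^ 2 with hM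
  have h3 : ∀ a, 0 < a → ‖f a‖ ^ 2 ≤ M / α * a := by
    intro a ha
    have h4 := bounds hα hf hc h2 hφ ha le_rfl
    rw [intervalIntegral.integral_same, zero_add, ← hM] at h4
    have hα0 : 0 < α := by linarith
    rw [← mul_div_assoc, div_le_iff₀ ha] at h4
    rw [div_mul_eq_mul_div, le_div_iff₀ hα0]
    linarith
  have h5 : Tendsto (fun a : ℝ => ‖f a‖ ^ 2) (𝓝[>] 0) (𝓝 0) := by
    apply squeeze_zero' (g := fun a => M / α * a)
    · exact Eventually.of_forall fun a => sq_nonneg _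
    · filter_upwards [self_mem_nhdsWithin] with a ha
      exact h3 a ha
    · have h6 : Tendsto (fun a : ℝ => M / α * a) (𝓝 0) (𝓝 (M / α * 0)) :=
        (continuous_const.mul continuous_id).tendsto 0
      rw [mul_zero] at h6
      exact h6.mono_left nhdsWithin_le_nhds
  rw [tendsto_zero_iff_norm_tendsto_zero]
  have h7 := h5.sqrt
  simpa using h7

theorem total {α : ℝ} (hα : 1 < α) {f f' : ℝ → ℂ} (hf : ∀ r, 0 < r → HasDerivAt f (f' r) r)
    (hc : ContinuousOn f' (Ioi 0)) (h2 : IntegrableOn (fun r => ‖f r‖ ^ 2) (Ioi 0))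
    (hφ : IntegrableOn (fun r => ‖f' r - (α / r) • f r‖ ^ 2) (Ioi 0)) :
    IntegrableOn (fun r => ‖f' r‖ ^ 2 + (α ^ 2 - α) * (‖f r‖ ^ 2 / r ^ 2)) (Ioi 0) ∧
    (∫ r in Ioi 0, (‖f' r‖ ^ 2 + (α ^ 2 - α) * (‖f r‖ ^ 2 / r ^ 2))) ≤
      ∫ r in Ioi 0, ‖f' r - (α / r) • f r‖ ^ 2 := by
  have hcf : ContinuousOn f (Ioi 0) := fun r hr => (hf r hr).continuousAt.continuousWithinAt
  have hαα : 0 < α ^ 2 - α := by nlinarith
  set A : ℝ → ℝ := fun r => ‖f' r‖ ^ 2 + (α ^ 2 - α) * (‖f r‖ ^ 2 / r ^ 2) with hAdef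
  set M := ∫ r in Ioi 0, ‖f' r - (α / r) • f r‖ ^ 2 with hM
  have hne2 : ∀ r ∈ Ioi (0 : ℝ), r ^ 2 ≠ 0 := fun r hr => pow_ne_zero 2 (ne_of_gt hr)
  have hA : ContinuousOn A (Ioi 0) :=
    (hc.norm.pow 2).add (continuousOn_const.mul ((hcf.norm.pow 2).div (continuousOn_id.pow 2) hne2))
  have hnn : ∀ r, 0 ≤ A r := fun r => by simp only [hAdef]; positivity
  set φ : ℕ → Set ℝ := fun n => Ioc (1 / ((n : ℝ) + 1)) (n + 1) with hφdef
  have hsub : ∀ n, φ n ⊆ Ioi 0 := fun n x hx => lt_trans (by positivity) hx.1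
  have hle : ∀ n : ℕ, 1 / ((n : ℝ) + 1) ≤ n + 1 := by
    intro n
    have h0 : (0 : ℝ) ≤ n := Nat.cast_nonneg n
    rw [div_le_iff₀ (by positivity)]
    nlinarith
  have hcov : AECover (volume.restrict (Ioi (0 : ℝ))) atTop φ := by
    constructor
    · refine (ae_restrict_mem measurableSet_Ioi).mono fun x hx => ?_
      have hx0 : (0 : ℝ) < x := hx
      obtain ⟨n0, hn0⟩ := exists_nat_gt (max x (1 / x))
      filter_upwards [eventually_ge_atTop n0] with n hn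
      have hn' : (n0 : ℝ) ≤ n := by exact_mod_cast hn
      have h1 : x < n := lt_of_lt_of_le (lt_of_le_of_lt (le_max_left _ _) hn0) hn'
      have h2 : 1 / x < n := lt_of_lt_of_le (lt_of_le_of_lt (le_max_right _ _) hn0) hn'
      refine ⟨?_, by linarith⟩
      rw [div_lt_iff₀ hx0] at h2
      rw [div_lt_iff₀ (by positivity)]
      nlinarith
    · intro n
      exact measurableSet_Ioc
  have hrestr : ∀ n, (volume.restrict (Ioi (0 : ℝ))).restrict (φ n) = volume.restrict (φ n) := by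
    intro n
    rw [Measure.restrict_restrict measurableSet_Ioc, inter_eq_self_of_subset_left (hsub n)]
  have hint : ∀ n : ℕ, IntervalIntegrable A volume (1 / ((n : ℝ) + 1)) (n + 1) := by
    intro n
    apply ContinuousOn.intervalIntegrable
    apply hA.mono
    rw [uIcc_of_le (hle n)]
    intro z hz
    exact lt_of_lt_of_le (by positivity) hz.1
  have hfi : ∀ n, IntegrableOn A (φ n) (volume.restrict (Ioi (0 : ℝ))) := by
    intro n
    rw [IntegrableOn, hrestr]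
    exact (intervalIntegrable_iff_integrableOn_Ioc_of_le (hle n)).1 (hint n)
  have hb : ∀ n, ∫ x in φ n, A x ∂(volume.restrict (Ioi (0 : ℝ))) ≤ M := by
    intro n
    rw [hrestr, ← intervalIntegral.integral_of_le (hle n)]
    have h3 := bounds hα hf hc h2 hφ (a := 1 / ((n : ℝ) + 1)) (by positivity) (hle n)
    have h4 : 0 ≤ α * (‖f (1 / ((n : ℝ) + 1))‖ ^ 2 / (1 / ((n : ℝ) + 1))) := by
      have : 0 < α := by linarith
      positivity
    linarith
  have hI : Integrable A (volume.restrict (Ioi (0 : ℝ))) := by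
    apply hcov.integrable_of_integral_norm_bounded M hfi
    refine Eventually.of_forall fun n => ?_
    have : ∀ x, ‖A x‖ = A x := fun x => by rw [Real.norm_eq_abs, abs_of_nonneg (hnn x)]
    simp only [this]
    exact hb n
  refine ⟨hI, ?_⟩
  exact le_of_tendsto (hcov.integral_tendsto_of_countably_generated hI)
    (Eventually.of_forall hb)

end Pool.Agent.R117.RL
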