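import Pool.Agent.R117.RL.Sys

/-!
Functions on the half line: the energy with a centrifugal term, general angular momentum.
-/

open MeasureTheory Set Filter Topology
open scoped InnerProductSpace

namespace Pool.Agent.R117.RL

section
variable {α lam : ℝ} {f f' : ℝ → ℂ}

theorem ident2 (hf : ∀ r, 0 < r → HasDerivAt f (f' r) r)
    (hc : ContinuousOn f' (Ioi 0)) {a b : ℝ} (ha : 0 < a) (hab : a ≤ b) :
    (∫ r in a..b, (‖f' r‖ ^ 2 + (α ^ 2 - α + lam) * (‖f r‖ ^ 2 / r ^ 2))) + α * (‖f a‖ ^ 2 / a) =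
      (∫ r in a..b, (‖f' r - (α / r) • f r‖ ^ 2 + lam * (‖f r‖ ^ 2 / r ^ 2))) +
        α * (‖f b‖ ^ 2 / b) := by
  have h1 := ident (α := α) hf hc ha hab
  have hsub : uIcc a b ⊆ Ioi (0 : ℝ) := by
    rw [uIcc_of_le hab]
    intro x hx
    exact lt_of_lt_of_le ha hx.1
  have hcf : ContinuousOn f (uIcc a b) := fun r hr =>
    (hf r (hsub hr)).continuousAt.continuousWithinAt
  have hcf' : ContinuousOn f' (uIcc a b) := hc.mono hsub
  have hne : ∀ r ∈ uIcc a b, r ≠ 0 := fun r hr => (ne_of_gt (hsub hr))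
  have hne2 : ∀ r ∈ uIcc a b, r ^ 2 ≠ 0 := fun r hr => pow_ne_zero 2 (hne r hr)
  have hA : ContinuousOn (fun r => ‖f' r‖ ^ 2 + (α ^ 2 - α) * (‖f r‖ ^ 2 / r ^ 2)) (uIcc a b) :=
    (hcf'.norm.pow 2).add (continuousOn_const.mul ((hcf.norm.pow 2).div (continuousOn_id.pow 2) hne2))
  have hΦ : ContinuousOn (fun r => ‖f' r - (α / r) • f r‖ ^ 2) (uIcc a b) :=
    ((hcf'.sub ((continuousOn_const.div continuousOn_id hne).smul hcf)).norm).pow 2
  have hL : ContinuousOn (fun r => lam * (‖f r‖ ^ 2 / r ^ 2)) (uIcc a b) :=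
    continuousOn_const.mul ((hcf.norm.pow 2).div (continuousOn_id.pow 2) hne2)
  have e1 : (∫ r in a..b, (‖f' r‖ ^ 2 + (α ^ 2 - α + lam) * (‖f r‖ ^ 2 / r ^ 2))) =
      (∫ r in a..b, (‖f' r‖ ^ 2 + (α ^ 2 - α) * (‖f r‖ ^ 2 / r ^ 2))) +
        ∫ r in a..b, lam * (‖f r‖ ^ 2 / r ^ 2) := by
    rw [← intervalIntegral.integral_add hA.intervalIntegrable hL.intervalIntegrable]
    congr 1
    funext r
    ring
  have e2 : (∫ r in a..b, (‖f' r - (α / r) • f r‖ ^ 2 + lam * (‖f r‖ ^ 2 / r ^ 2))) =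
      (∫ r in a..b, ‖f' r - (α / r) • f r‖ ^ 2) + ∫ r in a..b, lam * (‖f r‖ ^ 2 / r ^ 2) :=
    intervalIntegral.integral_add hΦ.intervalIntegrable hL.intervalIntegrable
  rw [e1, e2]
  linarith

theorem bounds2 (hα : 0 < α) (hl : 0 ≤ lam) (hαα : 0 < α ^ 2 - α + lam)
    (hf : ∀ r, 0 < r → HasDerivAt f (f' r) r)
    (hc : ContinuousOn f' (Ioi 0)) (h2 : IntegrableOn (fun r => ‖f r‖ ^ 2) (Ioi 0))
    (hφ : IntegrableOn (fun r => ‖f' r - (α / r) • f r‖ ^ 2 + lam * (‖f r‖ ^ 2 / r ^ 2)) (Ioi 0))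
    {a b : ℝ} (ha : 0 < a) (hab : a ≤ b) :
    (∫ r in a..b, (‖f' r‖ ^ 2 + (α ^ 2 - α + lam) * (‖f r‖ ^ 2 / r ^ 2))) + α * (‖f a‖ ^ 2 / a) ≤
      ∫ r in Ioi 0, (‖f' r - (α / r) • f r‖ ^ 2 + lam * (‖f r‖ ^ 2 / r ^ 2)) := by
  have hcf : ContinuousOn f (Ioi 0) := fun r hr => (hf r hr).continuousAt.continuousWithinAt
  refine le_of_forall_pos_le_add fun ε hε => ?_
  obtain ⟨b', hb1, hb0, hb2⟩ := exists_small h2 (max b (α / ε))
  have hbb : b ≤ b' := (le_max_left _ _).trans hb1.le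
  have hbε : α / ε < b' := lt_of_le_of_lt (le_max_right _ _) hb1
  have h3 := ident2 (α := α) (lam := lam) hf hc ha (hab.trans hbb)
  have hne2 : ∀ r ∈ Ioi (0 : ℝ), r ^ 2 ≠ 0 := fun r hr => pow_ne_zero 2 (ne_of_gt hr)
  have hA : ContinuousOn (fun r => ‖f' r‖ ^ 2 + (α ^ 2 - α + lam) * (‖f r‖ ^ 2 / r ^ 2)) (Ioi 0) :=
    (hc.norm.pow 2).add (continuousOn_const.mul ((hcf.norm.pow 2).div (continuousOn_id.pow 2) hne2))
  have hnn : ∀ r, 0 ≤ ‖f' r‖ ^ 2 + (α ^ 2 - α + lam) * (‖f r‖ ^ 2 / r ^ 2) := fun r => by positivity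
  have hint : ∀ {x y : ℝ}, 0 < x → x ≤ y → IntervalIntegrable
      (fun r => ‖f' r‖ ^ 2 + (α ^ 2 - α + lam) * (‖f r‖ ^ 2 / r ^ 2)) volume x y := by
    intro x y hx hxy
    apply ContinuousOn.intervalIntegrable
    apply hA.mono
    rw [uIcc_of_le hxy]
    intro z hz
    exact lt_of_lt_of_le hx hz.1
  have h4 : (∫ r in a..b, (‖f' r‖ ^ 2 + (α ^ 2 - α + lam) * (‖f r‖ ^ 2 / r ^ 2))) ≤
      ∫ r in a..b', (‖f' r‖ ^ 2 + (α ^ 2 - α + lam) * (‖f r‖ ^ 2 / r ^ 2)) := by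
    rw [← intervalIntegral.integral_add_adjacent_intervals (hint ha hab)
      (hint (lt_of_lt_of_le ha hab) hbb)]
    have : 0 ≤ ∫ r in b..b', (‖f' r‖ ^ 2 + (α ^ 2 - α + lam) * (‖f r‖ ^ 2 / r ^ 2)) :=
      intervalIntegral.integral_nonneg hbb fun r _ => hnn r
    linarith
  have h5 : (∫ r in a..b', (‖f' r - (α / r) • f r‖ ^ 2 + lam * (‖f r‖ ^ 2 / r ^ 2))) ≤
      ∫ r in Ioi 0, (‖f' r - (α / r) • f r‖ ^ 2 + lam * (‖f r‖ ^ 2 / r ^ 2)) := by
    rw [intervalIntegral.integral_of_le (hab.trans hbb)]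
    apply setIntegral_mono_set hφ
    · exact Eventually.of_forall fun r => by
        simp only [Pi.zero_apply]
        positivity
    · exact LE.le.eventuallyLE (fun x hx => lt_trans ha hx.1)
  have h6 : α * (‖f b'‖ ^ 2 / b') ≤ ε := by
    rw [div_lt_iff₀ hε] at hbε
    rw [← mul_div_assoc, div_le_iff₀ hb0]
    nlinarith
  linarith

theorem limit_zero2 (hα : 0 < α) (hl : 0 ≤ lam) (hαα : 0 < α ^ 2 - α + lam)
    (hf : ∀ r, 0 < r → HasDerivAt f (f' r) r)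
    (hc : ContinuousOn f' (Ioi 0)) (h2 : IntegrableOn (fun r => ‖f r‖ ^ 2) (Ioi 0))
    (hφ : IntegrableOn (fun r => ‖f' r - (α / r) • f r‖ ^ 2 + lam * (‖f r‖ ^ 2 / r ^ 2))
      (Ioi 0)) :
    Tendsto f (𝓝[>] 0) (𝓝 0) := by
  set M := ∫ r in Ioi 0, (‖f' r - (α / r) • f r‖ ^ 2 + lam * (‖f r‖ ^ 2 / r ^ 2)) with hM
  have h3 : ∀ a, 0 < a → ‖f a‖ ^ 2 ≤ M / α * a := by
    intro a ha
    have h4 := bounds2 hα hl hαα hf hc h2 hφ ha le_rfl
    rw [intervalIntegral.integral_same, zero_add, ← hM] at h4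
    rw [← mul_div_assoc, div_le_iff₀ ha] at h4
    rw [div_mul_eq_mul_div, le_div_iff₀ hα]
    linarith
  have h5 : Tendsto (fun a : ℝ => ‖f a‖ ^ 2) (𝓝[>] 0) (𝓝 0) := by
    apply squeeze_zero' (g := fun a => M / α * a)
    · exact Eventually.of_forall fun a => sq_nonneg _
    · filter_upwards [self_mem_nhdsWithin] with a ha
      exact h3 a ha
    · have h6 : Tendsto (fun a : ℝ => M / α * a) (𝓝 0) (𝓝 (M / α * 0)) :=
        (continuous_const.mul continuous_id).tendsto 0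
      rw [mul_zero] at h6
      exact h6.mono_left nhdsWithin_le_nhds
  rw [tendsto_zero_iff_norm_tendsto_zero]
  have h7 := h5.sqrt
  simpa using h7

theorem total2 (hα : 0 < α) (hl : 0 ≤ lam) (hαα : 0 < α ^ 2 - α + lam)
    (hf : ∀ r, 0 < r → HasDerivAt f (f' r) r)
    (hc : ContinuousOn f' (Ioi 0)) (h2 : IntegrableOn (fun r => ‖f r‖ ^ 2) (Ioi 0))
    (hφ : IntegrableOn (fun r => ‖f' r - (α / r) • f r‖ ^ 2 + lam * (‖f r‖ ^ 2 / r ^ 2))
      (Ioi 0)) :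
    IntegrableOn (fun r => ‖f' r‖ ^ 2 + (α ^ 2 - α + lam) * (‖f r‖ ^ 2 / r ^ 2)) (Ioi 0) ∧
    (∫ r in Ioi 0, (‖f' r‖ ^ 2 + (α ^ 2 - α + lam) * (‖f r‖ ^ 2 / r ^ 2))) ≤
      ∫ r in Ioi 0, (‖f' r - (α / r) • f r‖ ^ 2 + lam * (‖f r‖ ^ 2 / r ^ 2)) := by
  have hcf : ContinuousOn f (Ioi 0) := fun r hr => (hf r hr).continuousAt.continuousWithinAt
  set A : ℝ → ℝ := fun r => ‖f' r‖ ^ 2 + (α ^ 2 - α + lam) * (‖f r‖ ^ 2 / r ^ 2) with hAdef
  set M := ∫ r in Ioi 0, (‖f' r - (α / r) • f r‖ ^ 2 + lam * (‖f r‖ ^ 2 / r ^ 2)) with hM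
  have hne2 : ∀ r ∈ Ioi (0 : ℝ), r ^ 2 ≠ 0 := fun r hr => pow_ne_zero 2 (ne_of_gt hr)
  have hA : ContinuousOn A (Ioi 0) :=
    (hc.norm.pow 2).add (continuousOn_const.mul ((hcf.norm.pow 2).div (continuousOn_id.pow 2) hne2))
  have hnn : ∀ r, 0 ≤ A r := fun r => by simp only [hAdef]; positivity
  set φ : ℕ → Set ℝ := fun n => Ioc (1 / ((n : ℝ) + 1)) (n + 1) with hφdef
  have hsub : ∀ n, φ n ⊆ Ioi 0 := fun n x hx => lt_trans (by positivity) hx.1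
  have hle : ∀ n : ℕ, 1 / ((n : ℝ) + 1) ≤ n + 1 := by
    intro n
    have h0 : (0 : ℝ) ≤ n := Nat.cast_nonneg n
    rw [div_le_iff₀ (by positivity)]
    nlinarith
  have hcov : AECover (volume.restrict (Ioi (0 : ℝ))) atTop φ := by
    constructor
    · refine (ae_restrict_mem measurableSet_Ioi).mono fun x hx => ?_
      have hx0 : (0 : ℝ) < x := hx
      obtain ⟨n0, hn0⟩ := exists_nat_gt (max x (1 / x))
      filter_upwards [eventually_ge_atTop n0] with n hn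
      have hn' : (n0 : ℝ) ≤ n := by exact_mod_cast hn
      have h1 : x < n := lt_of_lt_of_le (lt_of_le_of_lt (le_max_left _ _) hn0) hn'
      have h2 : 1 / x < n := lt_of_lt_of_le (lt_of_le_of_lt (le_max_right _ _) hn0) hn'
      refine ⟨?_, by linarith⟩
      rw [div_lt_iff₀ hx0] at h2
      rw [div_lt_iff₀ (by positivity)]
      nlinarith
    · intro n
      exact measurableSet_Ioc
  have hrestr : ∀ n, (volume.restrict (Ioi (0 : ℝ))).restrict (φ n) = volume.restrict (φ n) := by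
    intro n
    rw [Measure.restrict_restrict measurableSet_Ioc, inter_eq_self_of_subset_left (hsub n)]
  have hint : ∀ n : ℕ, IntervalIntegrable A volume (1 / ((n : ℝ) + 1)) (n + 1) := by
    intro n
    apply ContinuousOn.intervalIntegrable
    apply hA.mono
    rw [uIcc_of_le (hle n)]
    intro z hz
    exact lt_of_lt_of_le (by positivity) hz.1
  have hfi : ∀ n, IntegrableOn A (φ n) (volume.restrict (Ioi (0 : ℝ))) := by
    intro n
    rw [IntegrableOn, hrestr]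
    exact (intervalIntegrable_iff_integrableOn_Ioc_of_le (hle n)).1 (hint n)
  have hb : ∀ n, ∫ x in φ n, A x ∂(volume.restrict (Ioi (0 : ℝ))) ≤ M := by
    intro n
    rw [hrestr, ← intervalIntegral.integral_of_le (hle n)]
    have h3 := bounds2 hα hl hαα hf hc h2 hφ (a := 1 / ((n : ℝ) + 1)) (by positivity) (hle n)
    have h4 : 0 ≤ α * (‖f (1 / ((n : ℝ) + 1))‖ ^ 2 / (1 / ((n : ℝ) + 1))) := by
      positivity
    linarith
  have hI : Integrable A (volume.restrict (Ioi (0 : ℝ))) := by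
    apply hcov.integrable_of_integral_norm_bounded M hfi
    refine Eventually.of_forall fun n => ?_
    have : ∀ x, ‖A x‖ = A x := fun x => by rw [Real.norm_eq_abs, abs_of_nonneg (hnn x)]
    simp only [this]
    exact hb n
  refine ⟨hI, ?_⟩
  exact le_of_tendsto (hcov.integral_tendsto_of_countably_generated hI)
    (Eventually.of_forall hb)

end

/-- the sharp inequality on the line, for systems on the half line with a centrifugal term -/
theorem halfline2 {N : ℕ} {α lam : ℝ} (hα : 0 < α) (hl : 0 ≤ lam) (hαα : 0 < α ^ 2 - α + lam)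
    (f f' : Fin N → ℝ → ℂ)
    (hf : ∀ n r, 0 < r → HasDerivAt (f n) (f' n r) r) (hc : ∀ n, ContinuousOn (f' n) (Ioi 0))
    (h2 : ∀ n, IntegrableOn (fun r => ‖f n r‖ ^ 2) (Ioi 0))
    (hφ : ∀ n, IntegrableOn (fun r => ‖f' n r - (α / r) • f n r‖ ^ 2 +
      lam * (‖f n r‖ ^ 2 / r ^ 2)) (Ioi 0))
    (ho : ∀ n m, ∫ r in Ioi 0, star (f n r) * f m r = if n = m then (1 : ℂ) else 0) :
    IntegrableOn (fun r => Real.pi ^ 2 / 4 * (∑ n, ‖f n r‖ ^ 2) ^ 3 +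
      (α ^ 2 - α + lam) * ((∑ n, ‖f n r‖ ^ 2) / r ^ 2)) (Ioi 0) ∧
    (∫ r in Ioi 0, (Real.pi ^ 2 / 4 * (∑ n, ‖f n r‖ ^ 2) ^ 3 +
      (α ^ 2 - α + lam) * ((∑ n, ‖f n r‖ ^ 2) / r ^ 2))) ≤
      ∑ n, ∫ r in Ioi 0, (‖f' n r - (α / r) • f n r‖ ^ 2 + lam * (‖f n r‖ ^ 2 / r ^ 2)) := by
  set c := α ^ 2 - α + lam with hcdef
  have hcf : ∀ n, ContinuousOn (f n) (Ioi 0) := fun n r hr =>
    (hf n r hr).continuousAt.continuousWithinAt
  have hne2 : ∀ r ∈ Ioi (0 : ℝ), r ^ 2 ≠ 0 := fun r hr => pow_ne_zero 2 (ne_of_gt hr)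
  have htot := fun n => total2 hα hl hαα (hf n) (hc n) (h2 n) (hφ n)
  rw [← hcdef] at htot
  -- the two parts
  have hd : ∀ n, IntegrableOn (fun r => ‖f' n r‖ ^ 2) (Ioi 0) := by
    intro n
    refine Integrable.mono' (htot n).1 ?_ ?_
    · exact ((hc n).norm.pow 2).aestronglyMeasurable measurableSet_Ioi
    · refine Eventually.of_forall fun r => ?_
      rw [Real.norm_eq_abs, abs_of_nonneg (sq_nonneg _)]
      have : 0 ≤ c * (‖f n r‖ ^ 2 / r ^ 2) := by positivity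
      linarith
  have hr2 : ∀ n, IntegrableOn (fun r => ‖f n r‖ ^ 2 / r ^ 2) (Ioi 0) := by
    intro n
    refine Integrable.mono' ((htot n).1.const_mul c⁻¹) ?_ ?_
    · exact (((hcf n).norm.pow 2).div (continuousOn_id.pow 2) hne2).aestronglyMeasurable
        measurableSet_Ioi
    · refine Eventually.of_forall fun r => ?_
      have h0 : 0 ≤ ‖f n r‖ ^ 2 / r ^ 2 := by positivity
      rw [Real.norm_eq_abs, abs_of_nonneg h0, mul_add, ← mul_assoc,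
        inv_mul_cancel₀ hαα.ne', one_mul]
      have : 0 ≤ c⁻¹ * ‖f' n r‖ ^ 2 := by positivity
      linarith
  have hu := fun n => ext_memLp (hcf n) (h2 n)
  have hg := fun n => ext_memLp (hc n) (hd n)
  have hlim := fun n => limit_zero2 hα hl hαα (hf n) (hc n) (h2 n) (hφ n)
  have horth : ∀ n m, ∫ x, star (ext (f n) x) * ext (f m) x = if n = m then (1 : ℂ) else 0 := by
    intro n m
    rw [← ho n m, ← integral_indicator measurableSet_Ioi]
    congr 1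
    funext x
    by_cases hx : 0 < x
    · rw [ext_pos hx, ext_pos hx, indicator_of_mem (show x ∈ Ioi (0 : ℝ) from hx)]
    · rw [ext_nonpos (not_lt.1 hx), ext_nonpos (not_lt.1 hx),
        indicator_of_notMem (fun h : x ∈ Ioi (0 : ℝ) => hx h)]
      simp
  have hsharp := Pool.Helper490.Calib.sharp_H1_complex (fun n => ext (f n)) (fun n => ext (f' n))
    hu hg (fun n a b => ext_ftc (hf n) (hlim n) (hg n) a b) horth
  have e3 : (fun x => (∑ n, ‖ext (f n) x‖ ^ 2) ^ 3) =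
      (Ioi (0 : ℝ)).indicator (fun r => (∑ n, ‖f n r‖ ^ 2) ^ 3) := by
    funext x
    by_cases hx : 0 < x
    · rw [indicator_of_mem (show x ∈ Ioi (0 : ℝ) from hx)]
      congr 1
      exact Finset.sum_congr rfl fun n _ => by rw [ext_pos hx]
    · rw [indicator_of_notMem (fun h : x ∈ Ioi (0 : ℝ) => hx h)]
      have : ∑ n, ‖ext (f n) x‖ ^ 2 = 0 := Finset.sum_eq_zero fun n _ => by
        rw [ext_nonpos (not_lt.1 hx)]
        simp
      rw [this]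
      norm_num
  rw [e3, integrable_indicator_iff measurableSet_Ioi, integral_indicator measurableSet_Ioi]
    at hsharp
  have e4 : ∀ n, ∫ x, ‖ext (f' n) x‖ ^ 2 = ∫ r in Ioi 0, ‖f' n r‖ ^ 2 := by
    intro n
    rw [ext_sq, integral_indicator measurableSet_Ioi]
  rw [Finset.sum_congr rfl fun n _ => e4 n] at hsharp
  have hsum : IntegrableOn (fun r => (∑ n, ‖f n r‖ ^ 2) / r ^ 2) (Ioi 0) := by
    simp only [Finset.sum_div]
    exact integrable_finsetSum _ fun n _ => hr2 n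
  have hI1 : IntegrableOn (fun r => Real.pi ^ 2 / 4 * (∑ n, ‖f n r‖ ^ 2) ^ 3) (Ioi 0) :=
    hsharp.1.const_mul _
  have hI2 : IntegrableOn (fun r => c * ((∑ n, ‖f n r‖ ^ 2) / r ^ 2)) (Ioi 0) :=
    hsum.const_mul _
  refine ⟨hI1.add hI2, ?_⟩
  rw [integral_add hI1 hI2, integral_const_mul, integral_const_mul]
  have e5 : ∫ r in Ioi 0, (∑ n, ‖f n r‖ ^ 2) / r ^ 2 = ∑ n, ∫ r in Ioi 0, ‖f n r‖ ^ 2 / r ^ 2 := by
    simp only [Finset.sum_div]
    exact integral_finsetSum _ fun n _ => hr2 n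
  rw [e5]
  have h7 : ∀ n, (∫ r in Ioi 0, ‖f' n r‖ ^ 2) + c * ∫ r in Ioi 0, ‖f n r‖ ^ 2 / r ^ 2 ≤
      ∫ r in Ioi 0, (‖f' n r - (α / r) • f n r‖ ^ 2 + lam * (‖f n r‖ ^ 2 / r ^ 2)) := by
    intro n
    have h8 := (htot n).2
    rw [integral_add (hd n) ((hr2 n).const_mul _), integral_const_mul] at h8
    exact h8
  calc Real.pi ^ 2 / 4 * (∫ r in Ioi 0, (∑ n, ‖f n r‖ ^ 2) ^ 3) +
        c * ∑ n, ∫ r in Ioi 0, ‖f n r‖ ^ 2 / r ^ 2
      ≤ ∑ n, (∫ r in Ioi 0, ‖f' n r‖ ^ 2) +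
        c * ∑ n, ∫ r in Ioi 0, ‖f n r‖ ^ 2 / r ^ 2 := by linarith [hsharp.2]
    _ = ∑ n, ((∫ r in Ioi 0, ‖f' n r‖ ^ 2) + c * ∫ r in Ioi 0, ‖f n r‖ ^ 2 / r ^ 2) := by
        rw [Finset.sum_add_distrib, Finset.mul_sum]
    _ ≤ _ := Finset.sum_le_sum fun n _ => h7 n

end Pool.Agent.R117.RL
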