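import Pool.Agent.R117.RL.ShellFull

/-!
The real and imaginary parts of `(x_1 + i x_2)^l` are a multiplet of angular momentum `l`.
-/

open MeasureTheory Set

namespace Pool.Agent.R117.RL

/-- `x_1 + i x_2` -/
noncomputable def zt : E 2 →L[ℝ] ℂ :=
  Complex.ofRealCLM.comp (EuclideanSpace.proj 0 : E 2 →L[ℝ] ℝ) +
    (Complex.I : ℂ) • Complex.ofRealCLM.comp (EuclideanSpace.proj 1 : E 2 →L[ℝ] ℝ)

theorem zt_apply (x : E 2) : zt x = (x 0 : ℂ) + Complex.I * (x 1 : ℂ) := by
  unfold zt
  simp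

theorem zt_norm (x : E 2) : ‖zt x‖ ^ 2 = ‖x‖ ^ 2 := by
  rw [zt_apply, ← Complex.normSq_eq_norm_sq, Complex.normSq_apply, EuclideanSpace.real_norm_sq_eq]
  simp [Fin.sum_univ_two]
  ring

/-- the real part for `j = 0`, the imaginary part for `j = 1` -/
noncomputable def plane (l : ℕ) (j : Fin 2) (x : E 2) : ℝ :=
  if j = 0 then (zt x ^ l).re else (zt x ^ l).im

theorem zt_pow (m : ℕ) (x : E 2) :
    HasFDerivAt (fun y => zt y ^ (m + 1)) ((((m : ℂ) + 1) * zt x ^ m) • zt) x := by
  have h1 := (zt.hasFDerivAt (x := x)).pow (m + 1)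
  have h2 : (((m : ℂ) + 1) * zt x ^ m) • zt = ((m + 1) • zt x ^ (m + 1 - 1)) • zt := by
    rw [Nat.add_sub_cancel, nsmul_eq_mul]
    push_cast
    rfl
  rw [h2]
  exact h1

theorem plane_deriv (m : ℕ) (j : Fin 2) (x v : E 2) :
    fderiv ℝ (plane (m + 1) j) x v =
      if j = 0 then (((m : ℂ) + 1) * zt x ^ m * zt v).re
      else (((m : ℂ) + 1) * zt x ^ m * zt v).im := by
  have h1 := zt_pow m x
  by_cases hj : j = 0
  · rw [if_pos hj]
    have h2 : plane (m + 1) j = fun y => Complex.reCLM (zt y ^ (m + 1)) := by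
      funext y
      unfold plane
      rw [if_pos hj]
      rfl
    have h3 : HasFDerivAt (fun y => Complex.reCLM (zt y ^ (m + 1)))
        (Complex.reCLM.comp ((((m : ℂ) + 1) * zt x ^ m) • zt)) x :=
      Complex.reCLM.hasFDerivAt.comp x h1
    rw [h2, h3.fderiv]
    rfl
  · rw [if_neg hj]
    have h2 : plane (m + 1) j = fun y => Complex.imCLM (zt y ^ (m + 1)) := by
      funext y
      unfold plane
      rw [if_neg hj]
      rfl
    have h3 : HasFDerivAt (fun y => Complex.imCLM (zt y ^ (m + 1)))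
        (Complex.imCLM.comp ((((m : ℂ) + 1) * zt x ^ m) • zt)) x :=
      Complex.imCLM.hasFDerivAt.comp x h1
    rw [h2, h3.fderiv]
    rfl

theorem re_im_sq (z : ℂ) : z.re ^ 2 + z.im ^ 2 = ‖z‖ ^ 2 := by
  rw [← Complex.normSq_eq_norm_sq, Complex.normSq_apply]
  ring

theorem shell_plane (m : ℕ) : Shell (d := 2) (m + 1) (plane (m + 1)) := by
  constructor
  · intro j
    have hz : ContDiff ℝ 1 (fun y => zt y ^ (m + 1)) := zt.contDiff.pow (m + 1)
    by_cases hj : j = 0
    · have h2 : plane (m + 1) j = fun y => Complex.reCLM (zt y ^ (m + 1)) := by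
        funext y
        unfold plane
        rw [if_pos hj]
        rfl
      rw [h2]
      exact Complex.reCLM.contDiff.comp hz
    · have h2 : plane (m + 1) j = fun y => Complex.imCLM (zt y ^ (m + 1)) := by
        funext y
        unfold plane
        rw [if_neg hj]
        rfl
      rw [h2]
      exact Complex.imCLM.contDiff.comp hz
  · intro j x
    rw [plane_deriv, mul_assoc, ← pow_succ]
    unfold plane
    have h1 : ((m : ℂ) + 1) * zt x ^ (m + 1) = (((m : ℝ) + 1 : ℝ) : ℂ) * zt x ^ (m + 1) := by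
      push_cast
      rfl
    by_cases hj : j = 0
    · rw [if_pos hj, if_pos hj, h1, Complex.re_ofReal_mul]
      push_cast
      rfl
    · rw [if_neg hj, if_neg hj, h1, Complex.im_ofReal_mul]
      push_cast
      rfl
  · intro x
    rw [Fin.sum_univ_two]
    unfold plane
    rw [if_pos rfl, if_neg one_ne_zero, re_im_sq, norm_pow, ← pow_mul, mul_comm (m + 1) 2, pow_mul,
      zt_norm, ← pow_mul]
  · intro x
    rw [Fin.sum_univ_two, Fin.sum_univ_two, Fin.sum_univ_two]
    simp only [plane_deriv, if_pos, one_ne_zero, if_false]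
    set a := ((m : ℂ) + 1) * zt x ^ m with ha
    have h0 := re_im_sq (a * zt (EuclideanSpace.single 0 1))
    have h1 := re_im_sq (a * zt (EuclideanSpace.single 1 1))
    have n0 : ‖zt (EuclideanSpace.single 0 1)‖ ^ 2 = 1 := by
      rw [zt_norm]
      simp
    have n1 : ‖zt (EuclideanSpace.single 1 1)‖ ^ 2 = 1 := by
      rw [zt_norm]
      simp
    rw [norm_mul, mul_pow, n0] at h0
    rw [norm_mul, mul_pow, n1] at h1
    have h2 : ‖a‖ ^ 2 = ((m : ℝ) + 1) ^ 2 * ‖x‖ ^ (2 * m) := by
      rw [ha, norm_mul, mul_pow, norm_pow, ← pow_mul, mul_comm m 2, pow_mul, zt_norm, ← pow_mul]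
      congr 2
      have : ((m : ℂ) + 1) = (((m : ℝ) + 1 : ℝ) : ℂ) := by push_cast; rfl
      rw [this, Complex.norm_real, Real.norm_eq_abs, abs_of_pos (by positivity)]
    have h3 : 2 * (m + 1) - 2 = 2 * m := by omega
    rw [h3]
    push_cast
    linarith

end Pool.Agent.R117.RL
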