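import Pool.Agent.R117.RL.Sys

/-!
Orthonormal systems of radial functions: the kinetic inequality for the profiles.
-/

open MeasureTheory Set Filter Topology
open scoped InnerProductSpace

namespace Pool.Agent.R117.RL

/-- `d`-dimensional Euclidean space -/
abbrev E (d : ℕ) := EuclideanSpace ℝ (Fin d)

/-- the volume of the unit ball -/
noncomputable def om (d : ℕ) : ℝ := (volume (Metric.ball (0 : E d) 1)).toReal

/-- the surface of the unit sphere -/
noncomputable def sg (d : ℕ) : ℝ := d * om d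

theorem om_pos (d : ℕ) : 0 < om d := by
  unfold om
  rw [ENNReal.toReal_pos_iff]
  exact ⟨Metric.measure_ball_pos _ _ one_pos, measure_ball_lt_top⟩

theorem sg_pos {d : ℕ} (hd : 0 < d) : 0 < sg d := by
  unfold sg
  have := om_pos d
  have : (0 : ℝ) < d := by exact_mod_cast hd
  positivity

/-- the constant for radial systems, `s` standing for the surface of the unit sphere -/
noncomputable def CC (d : ℕ) (s : ℝ) : ℝ :=
  (d * (d - 3) / 4) * (Real.pi ^ 2 / (d - 3)) ^ (1 / (d : ℝ)) * s ^ (2 / (d : ℝ))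

theorem pow_frac {x : ℝ} (hx : 0 ≤ x) {d : ℕ} (hd : 0 < d) (k : ℕ) :
    (x ^ ((k : ℝ) / (d : ℝ))) ^ d = x ^ k := by
  have : (0 : ℝ) < d := by exact_mod_cast hd
  rw [← Real.rpow_natCast, ← Real.rpow_mul hx, div_mul_cancel₀ _ this.ne', Real.rpow_natCast]

theorem ptw {k : ℕ} (hk : 3 ≤ k) {s y P : ℝ} (hs : 0 < s) (hy : 0 < y) (hP : 0 ≤ P) :
    CC (k + 1) s * (s * y ^ k * P ^ (1 + 2 / ((k + 1 : ℕ) : ℝ))) ≤
      Real.pi ^ 2 / 4 * (s * y ^ k * P) ^ 3 +
        (((k : ℝ) / 2) ^ 2 - (k : ℝ) / 2) * (s * y ^ k * P / y ^ 2) := by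
  have hk' : (3 : ℝ) ≤ k := by exact_mod_cast hk
  rcases hP.eq_or_lt with h0 | hP
  · rw [← h0, Real.zero_rpow (by positivity)]
    simp
  set S := s * y ^ k * P with hS
  have hSpos : 0 < S := by positivity
  have hπ := Real.pi_pos
  have hcast : ((k + 1 : ℕ) : ℝ) = (k : ℝ) + 1 := by push_cast; ring
  have h1 : P ^ (1 + 2 / ((k + 1 : ℕ) : ℝ)) = P * P ^ (2 / ((k + 1 : ℕ) : ℝ)) := by
    rw [Real.rpow_add hP, Real.rpow_one]
  set p₁ : ℝ := (k + 1) * (Real.pi ^ 2 * S ^ 2 / 4) with hp1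
  set p₂ : ℝ := ((k : ℝ) + 1) * (k - 2) / (4 * y ^ 2) with hp2
  have hk2 : 0 < (k : ℝ) - 2 := by linarith
  have hp1p : 0 < p₁ := by positivity
  have hp2p : 0 < p₂ := by positivity
  have hamgm := Real.geom_mean_le_arith_mean2_weighted (w₁ := 1 / ((k + 1 : ℕ) : ℝ))
    (w₂ := (k : ℝ) / ((k + 1 : ℕ) : ℝ)) (by positivity) (by positivity) hp1p.le hp2p.le
    (by rw [hcast]; field_simp; ring)
  have heq : CC (k + 1) s * P ^ (2 / ((k + 1 : ℕ) : ℝ)) =
      p₁ ^ (1 / ((k + 1 : ℕ) : ℝ)) * p₂ ^ ((k : ℝ) / ((k + 1 : ℕ) : ℝ)) := by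
    have hCC : 0 ≤ CC (k + 1) s * P ^ (2 / ((k + 1 : ℕ) : ℝ)) := by
      unfold CC
      rw [hcast]
      have : (0 : ℝ) < (k : ℝ) + 1 - 3 := by linarith
      positivity
    rw [← pow_left_inj₀ hCC (by positivity) (Nat.succ_ne_zero k)]
    unfold CC
    have e0 : (0 : ℝ) < ((k + 1 : ℕ) : ℝ) - 3 := by rw [hcast]; linarith
    have e1 := pow_frac (x := Real.pi ^ 2 / (((k + 1 : ℕ) : ℝ) - 3)) (by positivity)
      (Nat.succ_pos k) 1
    have e2 := pow_frac hs.le (Nat.succ_pos k) 2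
    have e3 := pow_frac hP.le (Nat.succ_pos k) 2
    have e4 := pow_frac hp1p.le (Nat.succ_pos k) 1
    have e5 := pow_frac hp2p.le (Nat.succ_pos k) k
    simp only [Nat.succ_eq_add_one, Nat.cast_one, Nat.cast_ofNat, pow_one] at e1 e2 e3 e4 e5
    have e6 : ((k : ℝ) + 1 - 3) = k - 2 := by ring
    have e7 : (((k : ℝ) + 1) * (k - 2) / (4 * y ^ 2)) ^ k =
        (((k : ℝ) + 1) * (k - 2) / 4) ^ k / (y ^ k) ^ 2 := by
      rw [← div_div, div_pow, ← pow_mul y 2 k, ← pow_mul y k 2, mul_comm 2 k]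
    rw [mul_pow, mul_pow, mul_pow, mul_pow, e1, e2, e3, e4, e5, hp1, hp2, hcast, hS, e7, e6]
    rw [Nat.succ_eq_add_one, pow_succ]
    field_simp
  have h2 : CC (k + 1) s * P ^ (2 / ((k + 1 : ℕ) : ℝ)) ≤
      Real.pi ^ 2 / 4 * S ^ 2 + (((k : ℝ) / 2) ^ 2 - (k : ℝ) / 2) / y ^ 2 := by
    rw [heq]
    refine hamgm.trans (le_of_eq ?_)
    rw [hcast, hp1, hp2]
    field_simp
    ring
  calc CC (k + 1) s * (s * y ^ k * P ^ (1 + 2 / ((k + 1 : ℕ) : ℝ)))
      = S * (CC (k + 1) s * P ^ (2 / ((k + 1 : ℕ) : ℝ))) := by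
        rw [h1, hS]
        ring
    _ ≤ S * (Real.pi ^ 2 / 4 * S ^ 2 + (((k : ℝ) / 2) ^ 2 - (k : ℝ) / 2) / y ^ 2) :=
        mul_le_mul_of_nonneg_left h2 hSpos.le
    _ = _ := by ring

/-- the integral of a radial function -/
theorem polar {F : Type} [NormedAddCommGroup F] [NormedSpace ℝ F] {k : ℕ} (h : ℝ → F) :
    ∫ x : E (k + 1), h ‖x‖ = sg (k + 1) • ∫ y in Ioi (0 : ℝ), y ^ k • h y := by
  have h1 := integral_fun_norm_addHaar (volume : Measure (E (k + 1))) h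
  rw [finrank_euclideanSpace_fin, Nat.add_sub_cancel] at h1
  rw [h1]
  unfold sg om
  rw [mul_smul, Nat.cast_smul_eq_nsmul]
  rfl

theorem polar_int {F : Type} [NormedAddCommGroup F] [NormedSpace ℝ F] {k : ℕ} {h : ℝ → F} :
    Integrable (fun x : E (k + 1) => h ‖x‖) ↔ IntegrableOn (fun y => y ^ k • h y) (Ioi (0 : ℝ)) := by
  have h1 := integrable_fun_norm_addHaar (μ := (volume : Measure (E (k + 1)))) (f := h)
  rw [finrank_euclideanSpace_fin, Nat.add_sub_cancel] at h1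
  exact h1

/-- the kinetic inequality for the profiles of a radial system -/
theorem radial {k N : ℕ} (hk : 3 ≤ k) (F F' : Fin N → ℝ → ℂ)
    (hF : ∀ n r, 0 < r → HasDerivAt (F n) (F' n r) r) (hc : ∀ n, ContinuousOn (F' n) (Ioi 0))
    (h2 : ∀ n, Integrable (fun x : E (k + 1) => ‖F n ‖x‖‖ ^ 2))
    (hd : ∀ n, Integrable (fun x : E (k + 1) => ‖F' n ‖x‖‖ ^ 2))
    (ho : ∀ n m, ∫ x : E (k + 1), star (F n ‖x‖) * F m ‖x‖ = if n = m then (1 : ℂ) else 0) :
    Integrable (fun x : E (k + 1) => (∑ n, ‖F n ‖x‖‖ ^ 2) ^ (1 + 2 / ((k + 1 : ℕ) : ℝ))) ∧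
    CC (k + 1) (sg (k + 1)) *
      (∫ x : E (k + 1), (∑ n, ‖F n ‖x‖‖ ^ 2) ^ (1 + 2 / ((k + 1 : ℕ) : ℝ))) ≤
      ∑ n, ∫ x : E (k + 1), ‖F' n ‖x‖‖ ^ 2 := by
  have hk' : (3 : ℝ) ≤ k := by exact_mod_cast hk
  have hs := sg_pos (Nat.succ_pos k)
  set s := sg (k + 1) with hsdef
  set α : ℝ := (k : ℝ) / 2 with hα
  have hα1 : 1 < α := by rw [hα]; linarith
  set w : ℝ → ℝ := fun r => √s * r ^ α with hw
  set w' : ℝ → ℝ := fun r => √s * (α * r ^ (α - 1)) with hw'
  have hws : ∀ r, 0 < r → w r ^ 2 = s * r ^ k := by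
    intro r hr
    rw [hw]
    simp only
    rw [mul_pow, Real.sq_sqrt hs.le, ← Real.rpow_natCast (r ^ α) 2, ← Real.rpow_mul hr.le, hα]
    congr 1
    rw [← Real.rpow_natCast r k]
    congr 1
    push_cast
    ring
  have hwd : ∀ r, 0 < r → HasDerivAt w (w' r) r := fun r hr =>
    (Real.hasDerivAt_rpow_const (Or.inl hr.ne')).const_mul _
  have hww : ∀ r, 0 < r → w' r = α / r * w r := by
    intro r hr
    rw [hw, hw']
    simp only
    rw [Real.rpow_sub_one hr.ne']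
    field_simp
  set f : Fin N → ℝ → ℂ := fun n r => w r • F n r with hf
  set f' : Fin N → ℝ → ℂ := fun n r => w r • F' n r + w' r • F n r with hf'
  have hfd : ∀ n r, 0 < r → HasDerivAt (f n) (f' n r) r := fun n r hr =>
    (hwd r hr).smul (hF n r hr)
  have hcF : ∀ n, ContinuousOn (F n) (Ioi 0) := fun n r hr =>
    (hF n r hr).continuousAt.continuousWithinAt
  have hcw : ContinuousOn w (Ioi 0) := fun r hr => (hwd r hr).continuousAt.continuousWithinAt
  have hcw' : ContinuousOn w' (Ioi 0) := by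
    apply ContinuousOn.mul continuousOn_const
    apply ContinuousOn.mul continuousOn_const
    exact ContinuousOn.rpow_const continuousOn_id fun r hr => Or.inl (ne_of_gt hr)
  have hcf' : ∀ n, ContinuousOn (f' n) (Ioi 0) := fun n =>
    (hcw.smul (hc n)).add (hcw'.smul (hcF n))
  have hfn : ∀ n, ∀ r ∈ Ioi (0 : ℝ), s * (r ^ k • ‖F n r‖ ^ 2) = ‖f n r‖ ^ 2 := by
    intro n r hr
    rw [hf]
    simp only
    rw [norm_smul, mul_pow, Real.norm_eq_abs, sq_abs, hws r hr, smul_eq_mul]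
    ring
  have hfφ : ∀ n, ∀ r ∈ Ioi (0 : ℝ), s * (r ^ k • ‖F' n r‖ ^ 2) =
      ‖f' n r - (α / r) • f n r‖ ^ 2 := by
    intro n r hr
    have e : f' n r - (α / r) • f n r = w r • F' n r := by
      rw [hf, hf']
      simp only
      rw [hww r hr, smul_smul]
      abel
    rw [e, norm_smul, mul_pow, Real.norm_eq_abs, sq_abs, hws r hr, smul_eq_mul]
    ring
  have h2' : ∀ n, IntegrableOn (fun r => ‖f n r‖ ^ 2) (Ioi 0) := fun n =>
    IntegrableOn.congr_fun
      (Integrable.const_mul ((polar_int (h := fun y => ‖F n y‖ ^ 2)).1 (h2 n)) s) (hfn n)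
      measurableSet_Ioi
  have hφ' : ∀ n, IntegrableOn (fun r => ‖f' n r - (α / r) • f n r‖ ^ 2) (Ioi 0) := fun n =>
    IntegrableOn.congr_fun
      (Integrable.const_mul ((polar_int (h := fun y => ‖F' n y‖ ^ 2)).1 (hd n)) s) (hfφ n)
      measurableSet_Ioi
  have ho' : ∀ n m, ∫ r in Ioi 0, star (f n r) * f m r = if n = m then (1 : ℂ) else 0 := by
    intro n m
    rw [← ho n m]
    have h3 := polar (k := k) (fun y => star (F n y) * F m y)
    rw [h3, ← integral_smul]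
    apply setIntegral_congr_fun measurableSet_Ioi
    intro r hr
    have e : star (f n r) * f m r = (w r ^ 2) • (star (F n r) * F m r) := by
      rw [hf]
      simp only [Complex.real_smul, star_mul', Complex.star_def, Complex.conj_ofReal]
      push_cast
      ring
    simp only
    rw [e, hws r hr, mul_smul]
  have hmain := halfline hα1 f f' hfd hcf' h2' hφ' ho'
  -- the density
  set P : ℝ → ℝ := fun r => ∑ n, ‖F n r‖ ^ 2 with hP
  have hP0 : ∀ r, 0 ≤ P r := fun r => Finset.sum_nonneg fun n _ => sq_nonneg _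
  have hPc : ContinuousOn P (Ioi 0) := by
    apply continuousOn_finsetSum
    intro n _
    exact (hcF n).norm.pow 2
  have hsum : ∀ r ∈ Ioi (0 : ℝ), ∑ n, ‖f n r‖ ^ 2 = s * r ^ k * P r := by
    intro r hr
    rw [hP]
    simp only
    rw [Finset.mul_sum]
    refine Finset.sum_congr rfl fun n _ => ?_
    rw [← hfn n r hr, smul_eq_mul]
    ring
  have hpt : ∀ r ∈ Ioi (0 : ℝ), CC (k + 1) s * (s * (r ^ k • P r ^ (1 + 2 / ((k + 1 : ℕ) : ℝ)))) ≤
      Real.pi ^ 2 / 4 * (∑ n, ‖f n r‖ ^ 2) ^ 3 + (α ^ 2 - α) * ((∑ n, ‖f n r‖ ^ 2) / r ^ 2) := by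
    intro r hr
    rw [hsum r hr, smul_eq_mul, ← mul_assoc s]
    exact ptw hk hs hr (hP0 r)
  have hCC : 0 < CC (k + 1) s := by
    unfold CC
    have : (0 : ℝ) < ((k + 1 : ℕ) : ℝ) - 3 := by push_cast; linarith
    have := Real.pi_pos
    positivity
  have hI : IntegrableOn (fun r => r ^ k • P r ^ (1 + 2 / ((k + 1 : ℕ) : ℝ))) (Ioi 0) := by
    refine Integrable.mono' (hmain.1.const_mul (CC (k + 1) s * s)⁻¹) ?_ ?_
    · apply ContinuousOn.aestronglyMeasurable _ measurableSet_Ioi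
      apply (continuousOn_id.pow k).smul
      exact hPc.rpow_const fun r _ => Or.inr (by positivity)
    · refine (ae_restrict_mem measurableSet_Ioi).mono fun r hr => ?_
      have hr0 : (0 : ℝ) < r := hr
      have h0 : 0 ≤ r ^ k • P r ^ (1 + 2 / ((k + 1 : ℕ) : ℝ)) := by
        rw [smul_eq_mul]
        exact mul_nonneg (by positivity) (Real.rpow_nonneg (hP0 r) _)
      rw [Real.norm_eq_abs, abs_of_nonneg h0]
      have h3 := hpt r hr
      rw [← mul_assoc] at h3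
      rw [← div_eq_inv_mul, le_div_iff₀ (by positivity), mul_comm]
      exact h3
  refine ⟨polar_int.2 hI, ?_⟩
  have e1 := polar (k := k) (fun y => P y ^ (1 + 2 / ((k + 1 : ℕ) : ℝ)))
  have e2 : ∀ n, ∫ x : E (k + 1), ‖F' n ‖x‖‖ ^ 2 = ∫ r in Ioi 0, ‖f' n r - (α / r) • f n r‖ ^ 2 := by
    intro n
    have h3 := polar (k := k) (fun y => ‖F' n y‖ ^ 2)
    rw [h3, smul_eq_mul, ← integral_const_mul]
    exact setIntegral_congr_fun measurableSet_Ioi (hfφ n)
  rw [Finset.sum_congr rfl fun n _ => e2 n]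
  refine le_trans (le_of_eq ?_) (le_trans
    (setIntegral_mono_on ((hI.const_mul s).const_mul (CC (k + 1) s)) hmain.1 measurableSet_Ioi hpt)
    hmain.2)
  rw [integral_const_mul, integral_const_mul]
  congr 1

end Pool.Agent.R117.RL
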