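import Pool.Agent.R117.RL.Half2
import Pool.Agent.R117.RL.Full

/-!
Closed shells: the functions `G_n(|x|) P_j(x)`, where the `P_j` are a full multiplet.
-/

open MeasureTheory Set Filter Topology
open scoped InnerProductSpace

namespace Pool.Agent.R117.RL

/-- the constant for closed shells; `c` is the coefficient of the centrifugal term, `s` the surface
of the unit sphere divided by the number of the functions of the multiplet -/
noncomputable def CL (k : ℕ) (c s : ℝ) : ℝ :=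
  ((k : ℝ) + 1) * (Real.pi ^ 2 / 4) ^ (1 / ((k + 1 : ℕ) : ℝ)) *
    (c / k) ^ ((k : ℝ) / ((k + 1 : ℕ) : ℝ)) * s ^ (2 / ((k + 1 : ℕ) : ℝ))

theorem ptw2 {k : ℕ} (hk : 1 ≤ k) {c s y P : ℝ} (hc : 0 < c) (hs : 0 < s) (hy : 0 < y)
    (hP : 0 ≤ P) :
    CL k c s * (s * y ^ k * P ^ (1 + 2 / ((k + 1 : ℕ) : ℝ))) ≤
      Real.pi ^ 2 / 4 * (s * y ^ k * P) ^ 3 + c * (s * y ^ k * P / y ^ 2) := by
  have hk' : (1 : ℝ) ≤ k := by exact_mod_cast hk
  rcases hP.eq_or_lt with h0 | hP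
  · rw [← h0, Real.zero_rpow (by positivity)]
    simp
  set S := s * y ^ k * P with hS
  have hSpos : 0 < S := by positivity
  have hπ := Real.pi_pos
  have hcast : ((k + 1 : ℕ) : ℝ) = (k : ℝ) + 1 := by push_cast; ring
  have h1 : P ^ (1 + 2 / ((k + 1 : ℕ) : ℝ)) = P * P ^ (2 / ((k + 1 : ℕ) : ℝ)) := by
    rw [Real.rpow_add hP, Real.rpow_one]
  set p₁ : ℝ := (k + 1) * (Real.pi ^ 2 * S ^ 2 / 4) with hp1
  set p₂ : ℝ := ((k : ℝ) + 1) * (c / k) / y ^ 2 with hp2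
  have hp1p : 0 < p₁ := by positivity
  have hp2p : 0 < p₂ := by positivity
  have hamgm := Real.geom_mean_le_arith_mean2_weighted (w₁ := 1 / ((k + 1 : ℕ) : ℝ))
    (w₂ := (k : ℝ) / ((k + 1 : ℕ) : ℝ)) (by positivity) (by positivity) hp1p.le hp2p.le
    (by rw [hcast]; field_simp; ring)
  have heq : CL k c s * P ^ (2 / ((k + 1 : ℕ) : ℝ)) =
      p₁ ^ (1 / ((k + 1 : ℕ) : ℝ)) * p₂ ^ ((k : ℝ) / ((k + 1 : ℕ) : ℝ)) := by
    have hCC : 0 ≤ CL k c s * P ^ (2 / ((k + 1 : ℕ) : ℝ)) := by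
      unfold CL
      positivity
    rw [← pow_left_inj₀ hCC (by positivity) (Nat.succ_ne_zero k)]
    unfold CL
    have e1 := pow_frac (x := Real.pi ^ 2 / 4) (by positivity) (Nat.succ_pos k) 1
    have e2 := pow_frac hs.le (Nat.succ_pos k) 2
    have e3 := pow_frac hP.le (Nat.succ_pos k) 2
    have e4 := pow_frac hp1p.le (Nat.succ_pos k) 1
    have e5 := pow_frac hp2p.le (Nat.succ_pos k) k
    have e8 := pow_frac (x := c / k) (by positivity) (Nat.succ_pos k) k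
    simp only [Nat.succ_eq_add_one, Nat.cast_one, Nat.cast_ofNat, pow_one] at e1 e2 e3 e4 e5 e8
    have e7 : (((k : ℝ) + 1) * (c / k) / y ^ 2) ^ k =
        ((k : ℝ) + 1) ^ k * (c / k) ^ k / (y ^ k) ^ 2 := by
      rw [div_pow, mul_pow, ← pow_mul y 2 k, ← pow_mul y k 2, mul_comm 2 k]
    rw [mul_pow, mul_pow, mul_pow, mul_pow, mul_pow, e1, e2, e3, e4, e5, e8, hp1, hp2, hS, e7]
    rw [Nat.succ_eq_add_one, pow_succ]
    field_simp
  have h2 : CL k c s * P ^ (2 / ((k + 1 : ℕ) : ℝ)) ≤ Real.pi ^ 2 / 4 * S ^ 2 + c / y ^ 2 := by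
    rw [heq]
    refine hamgm.trans (le_of_eq ?_)
    rw [hcast, hp1, hp2]
    field_simp
  calc CL k c s * (s * y ^ k * P ^ (1 + 2 / ((k + 1 : ℕ) : ℝ)))
      = S * (CL k c s * P ^ (2 / ((k + 1 : ℕ) : ℝ))) := by
        rw [h1, hS]
        ring
    _ ≤ S * (Real.pi ^ 2 / 4 * S ^ 2 + c / y ^ 2) := mul_le_mul_of_nonneg_left h2 hSpos.le
    _ = _ := by ring

/-- the kinetic inequality for the radial parts of closed shells -/
theorem radial2 {k N : ℕ} (hk : 1 ≤ k) {lam q : ℝ} (hq : 0 < q) (hl : 0 ≤ lam)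
    (hαα : 0 < ((k : ℝ) / 2) ^ 2 - (k : ℝ) / 2 + lam) (F F' : Fin N → ℝ → ℂ)
    (hF : ∀ n r, 0 < r → HasDerivAt (F n) (F' n r) r) (hc : ∀ n, ContinuousOn (F' n) (Ioi 0))
    (h2 : ∀ n, Integrable (fun x : E (k + 1) => ‖F n ‖x‖‖ ^ 2))
    (hd : ∀ n, Integrable (fun x : E (k + 1) => ‖F' n ‖x‖‖ ^ 2 + lam * (‖F n ‖x‖‖ ^ 2 / ‖x‖ ^ 2)))
    (ho : ∀ n m, ∫ x : E (k + 1), star (F n ‖x‖) * F m ‖x‖ = if n = m then (q : ℂ) else 0) :
    Integrable (fun x : E (k + 1) => (∑ n, ‖F n ‖x‖‖ ^ 2) ^ (1 + 2 / ((k + 1 : ℕ) : ℝ))) ∧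
    CL k (((k : ℝ) / 2) ^ 2 - (k : ℝ) / 2 + lam) (sg (k + 1) / q) *
      (∫ x : E (k + 1), (∑ n, ‖F n ‖x‖‖ ^ 2) ^ (1 + 2 / ((k + 1 : ℕ) : ℝ))) ≤
      ∑ n, ∫ x : E (k + 1), (‖F' n ‖x‖‖ ^ 2 + lam * (‖F n ‖x‖‖ ^ 2 / ‖x‖ ^ 2)) := by
  have hk' : (1 : ℝ) ≤ k := by exact_mod_cast hk
  have hsg := sg_pos (Nat.succ_pos k)
  set s := sg (k + 1) / q with hsdef
  have hs : 0 < s := by positivity
  have hsq : sg (k + 1) = q * s := by rw [hsdef]; field_simp
  set α : ℝ := (k : ℝ) / 2 with hα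
  have hα0 : 0 < α := by rw [hα]; positivity
  set c := α ^ 2 - α + lam with hcdef
  set w : ℝ → ℝ := fun r => √s * r ^ α with hw
  set w' : ℝ → ℝ := fun r => √s * (α * r ^ (α - 1)) with hw'
  have hws : ∀ r, 0 < r → w r ^ 2 = s * r ^ k := by
    intro r hr
    rw [hw]
    simp only
    rw [mul_pow, Real.sq_sqrt hs.le, ← Real.rpow_natCast (r ^ α) 2, ← Real.rpow_mul hr.le, hα]
    congr 1
    rw [← Real.rpow_natCast r k]
    congr 1
    push_cast
    ring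
  have hwd : ∀ r, 0 < r → HasDerivAt w (w' r) r := fun r hr =>
    (Real.hasDerivAt_rpow_const (Or.inl hr.ne')).const_mul _
  have hww : ∀ r, 0 < r → w' r = α / r * w r := by
    intro r hr
    rw [hw, hw']
    simp only
    rw [Real.rpow_sub_one hr.ne']
    field_simp
  set f : Fin N → ℝ → ℂ := fun n r => w r • F n r with hf
  set f' : Fin N → ℝ → ℂ := fun n r => w r • F' n r + w' r • F n r with hf'
  have hfd : ∀ n r, 0 < r → HasDerivAt (f n) (f' n r) r := fun n r hr =>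
    (hwd r hr).smul (hF n r hr)
  have hcF : ∀ n, ContinuousOn (F n) (Ioi 0) := fun n r hr =>
    (hF n r hr).continuousAt.continuousWithinAt
  have hcw : ContinuousOn w (Ioi 0) := fun r hr => (hwd r hr).continuousAt.continuousWithinAt
  have hcw' : ContinuousOn w' (Ioi 0) := by
    apply ContinuousOn.mul continuousOn_const
    apply ContinuousOn.mul continuousOn_const
    exact ContinuousOn.rpow_const continuousOn_id fun r hr => Or.inl (ne_of_gt hr)
  have hcf' : ∀ n, ContinuousOn (f' n) (Ioi 0) := fun n =>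
    (hcw.smul (hc n)).add (hcw'.smul (hcF n))
  have hfn : ∀ n, ∀ r ∈ Ioi (0 : ℝ), s * (r ^ k • ‖F n r‖ ^ 2) = ‖f n r‖ ^ 2 := by
    intro n r hr
    rw [hf]
    simp only
    rw [norm_smul, mul_pow, Real.norm_eq_abs, sq_abs, hws r hr, smul_eq_mul]
    ring
  have hfφ : ∀ n, ∀ r ∈ Ioi (0 : ℝ),
      s * (r ^ k • (‖F' n r‖ ^ 2 + lam * (‖F n r‖ ^ 2 / r ^ 2))) =
      ‖f' n r - (α / r) • f n r‖ ^ 2 + lam * (‖f n r‖ ^ 2 / r ^ 2) := by
    intro n r hr
    have e : f' n r - (α / r) • f n r = w r • F' n r := by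
      rw [hf, hf']
      simp only
      rw [hww r hr, smul_smul]
      abel
    rw [e, norm_smul, mul_pow, Real.norm_eq_abs, sq_abs, hws r hr, smul_eq_mul, ← hfn n r hr,
      smul_eq_mul]
    ring
  have h2' : ∀ n, IntegrableOn (fun r => ‖f n r‖ ^ 2) (Ioi 0) := fun n =>
    IntegrableOn.congr_fun
      (Integrable.const_mul ((polar_int (h := fun y => ‖F n y‖ ^ 2)).1 (h2 n)) s) (hfn n)
      measurableSet_Ioi
  have hφ' : ∀ n, IntegrableOn (fun r => ‖f' n r - (α / r) • f n r‖ ^ 2 +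
      lam * (‖f n r‖ ^ 2 / r ^ 2)) (Ioi 0) := fun n =>
    IntegrableOn.congr_fun
      (Integrable.const_mul
        ((polar_int (h := fun y => ‖F' n y‖ ^ 2 + lam * (‖F n y‖ ^ 2 / y ^ 2))).1 (hd n)) s)
      (hfφ n) measurableSet_Ioi
  have ho' : ∀ n m, ∫ r in Ioi 0, star (f n r) * f m r = if n = m then (1 : ℂ) else 0 := by
    intro n m
    have h3 := polar (k := k) (fun y => star (F n y) * F m y)
    rw [ho n m, hsq] at h3
    have h4 : ∫ r in Ioi 0, star (f n r) * f m r =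
        s • ∫ y in Ioi (0 : ℝ), y ^ k • (star (F n y) * F m y) := by
      rw [← integral_smul]
      apply setIntegral_congr_fun measurableSet_Ioi
      intro r hr
      have e : star (f n r) * f m r = (w r ^ 2) • (star (F n r) * F m r) := by
        rw [hf]
        simp only [Complex.real_smul, star_mul', Complex.star_def, Complex.conj_ofReal]
        push_cast
        ring
      simp only
      rw [e, hws r hr, mul_smul]
    rw [h4]
    rw [mul_smul] at h3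
    have hqc : (q : ℂ) ≠ 0 := by exact_mod_cast hq.ne'
    rw [Complex.real_smul (x := q)] at h3
    by_cases hnm : n = m
    · rw [if_pos hnm] at h3 ⊢
      have h5 : (q : ℂ) * (s • ∫ y in Ioi (0 : ℝ), y ^ k • (star (F n y) * F m y)) = q * 1 := by
        rw [mul_one]
        exact h3.symm
      exact mul_left_cancel₀ hqc h5
    · rw [if_neg hnm] at h3 ⊢
      rcases mul_eq_zero.1 h3.symm with h5 | h5
      · exact absurd h5 hqc
      · exact h5
  have hmain := halfline2 hα0 hl hαα f f' hfd hcf' h2' hφ' ho'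
  rw [← hcdef] at hmain
  -- the density
  set P : ℝ → ℝ := fun r => ∑ n, ‖F n r‖ ^ 2 with hP
  have hP0 : ∀ r, 0 ≤ P r := fun r => Finset.sum_nonneg fun n _ => sq_nonneg _
  have hPc : ContinuousOn P (Ioi 0) := by
    apply continuousOn_finsetSum
    intro n _
    exact (hcF n).norm.pow 2
  have hsum : ∀ r ∈ Ioi (0 : ℝ), ∑ n, ‖f n r‖ ^ 2 = s * r ^ k * P r := by
    intro r hr
    rw [hP]
    simp only
    rw [Finset.mul_sum]
    refine Finset.sum_congr rfl fun n _ => ?_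
    rw [← hfn n r hr, smul_eq_mul]
    ring
  have hpt : ∀ r ∈ Ioi (0 : ℝ), CL k c s * (s * (r ^ k • P r ^ (1 + 2 / ((k + 1 : ℕ) : ℝ)))) ≤
      Real.pi ^ 2 / 4 * (∑ n, ‖f n r‖ ^ 2) ^ 3 + c * ((∑ n, ‖f n r‖ ^ 2) / r ^ 2) := by
    intro r hr
    rw [hsum r hr, smul_eq_mul, ← mul_assoc s]
    exact ptw2 hk hαα hs hr (hP0 r)
  have hCC : 0 < CL k c s := by
    unfold CL
    have := Real.pi_pos
    positivity
  have hI : IntegrableOn (fun r => r ^ k • P r ^ (1 + 2 / ((k + 1 : ℕ) : ℝ))) (Ioi 0) := by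
    refine Integrable.mono' (hmain.1.const_mul (CL k c s * s)⁻¹) ?_ ?_
    · apply ContinuousOn.aestronglyMeasurable _ measurableSet_Ioi
      apply (continuousOn_id.pow k).smul
      exact hPc.rpow_const fun r _ => Or.inr (by positivity)
    · refine (ae_restrict_mem measurableSet_Ioi).mono fun r hr => ?_
      have hr0 : (0 : ℝ) < r := hr
      have h0 : 0 ≤ r ^ k • P r ^ (1 + 2 / ((k + 1 : ℕ) : ℝ)) := by
        rw [smul_eq_mul]
        exact mul_nonneg (by positivity) (Real.rpow_nonneg (hP0 r) _)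
      rw [Real.norm_eq_abs, abs_of_nonneg h0]
      have h3 := hpt r hr
      rw [← mul_assoc] at h3
      rw [← div_eq_inv_mul, le_div_iff₀ (by positivity), mul_comm]
      exact h3
  refine ⟨polar_int.2 hI, ?_⟩
  have e1 := polar (k := k) (fun y => P y ^ (1 + 2 / ((k + 1 : ℕ) : ℝ)))
  have e2 : ∀ n, ∫ x : E (k + 1), (‖F' n ‖x‖‖ ^ 2 + lam * (‖F n ‖x‖‖ ^ 2 / ‖x‖ ^ 2)) =
      q * ∫ r in Ioi 0, (‖f' n r - (α / r) • f n r‖ ^ 2 + lam * (‖f n r‖ ^ 2 / r ^ 2)) := by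
    intro n
    have h3 := polar (k := k) (fun y => ‖F' n y‖ ^ 2 + lam * (‖F n y‖ ^ 2 / y ^ 2))
    rw [h3, hsq, smul_eq_mul, mul_assoc, ← integral_const_mul s]
    congr 1
    exact setIntegral_congr_fun measurableSet_Ioi (hfφ n)
  rw [Finset.sum_congr rfl fun n _ => e2 n, ← Finset.mul_sum]
  refine le_trans (le_of_eq ?_) (mul_le_mul_of_nonneg_left (le_trans
    (setIntegral_mono_on ((hI.const_mul s).const_mul (CL k c s)) hmain.1 measurableSet_Ioi hpt)
    hmain.2) hq.le)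
  rw [integral_const_mul, integral_const_mul]
  have e3 : ∫ x : E (k + 1), (∑ n, ‖F n ‖x‖‖ ^ 2) ^ (1 + 2 / ((k + 1 : ℕ) : ℝ)) =
      q * s * ∫ r in Ioi 0, r ^ k • P r ^ (1 + 2 / ((k + 1 : ℕ) : ℝ)) := by
    rw [← hsq]
    exact e1
  rw [e3]
  ring

end Pool.Agent.R117.RL
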