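import Pool.Agent.R117.RL.ShellFull
import Pool.Agent.R117.RL.Cst

/-!
The constants for closed shells, compared with the semiclassical constant; two multiplets.
-/

open MeasureTheory Set

namespace Pool.Agent.R117.RL

theorem Ga_two : Ga 2 = 1 := by
  unfold Ga
  have : (((2 : ℕ) : ℝ) / 2 + 1) = ((1 : ℕ) : ℝ) + 1 := by norm_num
  rw [this, Real.Gamma_nat_eq_factorial]
  norm_num [Nat.factorial]

theorem Ga_three : Ga 3 = 3 / 4 * √Real.pi := by
  have h3 := Ga_step 1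
  rw [h3, Ga_one]
  push_cast
  ring

theorem Ga_bound1 (k : ℕ) (hk : 1 ≤ k) :
    Ga (k + 1) ^ 4 ≤
      Real.pi ^ 2 / 4 * (((k : ℝ) + 2) / 4) ^ k * (((k : ℝ) + 3) / 4) ^ (k + 1) := by
  induction k using Nat.strong_induction_on with
  | _ k ih =>
    have hπ2 : 9.85 < Real.pi ^ 2 := by
      have := Real.pi_gt_d2
      nlinarith
    have hs : √Real.pi ^ 2 = Real.pi := Real.sq_sqrt Real.pi_pos.le
    have hs4 : √Real.pi ^ 4 = Real.pi ^ 2 := by
      rw [show (4 : ℕ) = 2 * 2 from rfl, pow_mul, hs]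
    rcases Nat.lt_or_ge k 4 with h4 | h4
    · interval_cases k
      · rw [show (1 : ℕ) + 1 = 2 from rfl, Ga_two]
        push_cast
        norm_num
        nlinarith
      · rw [show (2 : ℕ) + 1 = 3 from rfl, Ga_three, mul_pow, hs4]
        push_cast
        norm_num
        nlinarith
      · rw [show (3 : ℕ) + 1 = 4 from rfl, Ga_four]
        push_cast
        norm_num
        nlinarith
    · obtain ⟨e, rfl⟩ : ∃ e, k = e + 2 := ⟨k - 2, by omega⟩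
      have he : 2 ≤ e := by omega
      have hih := ih e (by omega) (by omega)
      have he' : (2 : ℝ) ≤ e := by exact_mod_cast he
      rw [show e + 2 + 1 = (e + 1) + 2 from rfl, Ga_step, mul_pow]
      push_cast
      set t : ℝ := (e : ℝ) + 1 with ht
      have hte : (e : ℝ) = t - 1 := by rw [ht]; ring
      have ht3 : 3 ≤ t := by linarith
      have hb1 := bern (x := 2 / (t + 1)) (by positivity) e
      have hb2 := bern (x := 2 / (t + 2)) (by positivity) (e + 1)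
      push_cast at hb2
      rw [← ht] at hb2
      rw [hte] at hb1
      have e1 : 1 + (t - 1) * (2 / (t + 1)) + (t - 1) * (t - 1 - 1) * (2 / (t + 1)) ^ 2 / 2 =
          (5 * t ^ 2 - 4 * t + 3) / (t + 1) ^ 2 := by
        field_simp
        ring
      have e2 : 1 + t * (2 / (t + 2)) + t * (t - 1) * (2 / (t + 2)) ^ 2 / 2 =
          (5 * t ^ 2 + 6 * t + 4) / (t + 2) ^ 2 := by
        field_simp
        ring
      rw [e1] at hb1
      rw [e2] at hb2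
      have e3 : 1 + 2 / (t + 1) = (t + 3) / (t + 1) := by
        field_simp
        ring
      have e4 : 1 + 2 / (t + 2) = (t + 4) / (t + 2) := by
        field_simp
        ring
      rw [e3] at hb1
      rw [e4] at hb2
      have hn1 : 0 < 5 * t ^ 2 - 4 * t + 3 := by nlinarith
      have hpoly : 16 * (t + 1) ^ 2 * (t + 2) ^ 6 ≤
          (5 * t ^ 2 - 4 * t + 3) * (5 * t ^ 2 + 6 * t + 4) * (t + 3) ^ 2 * (t + 4) ^ 2 := by
        obtain ⟨s, hs, hst⟩ : ∃ s : ℝ, 0 ≤ s ∧ t = s + 3 := ⟨t - 3, by linarith, by ring⟩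
        rw [hst]
        have : 0 ≤ (254768 : ℝ) + 1192936 * s + 1437296 * s ^ 2 + 822658 * s ^ 3 +
          265123 * s ^ 4 + 50814 * s ^ 5 + 5740 * s ^ 6 + 352 * s ^ 7 + 9 * s ^ 8 := by positivity
        nlinarith
      have f1 : (e : ℝ) + 2 = t + 1 := by rw [ht]; ring
      have f2 : (e : ℝ) + 3 = t + 2 := by rw [ht]; ring
      have f3 : (e : ℝ) + 2 + 2 = t + 3 := by rw [ht]; ring
      have f4 : (e : ℝ) + 2 + 3 = t + 4 := by rw [ht]; ring
      rw [f1, f2] at hih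
      rw [f3, f4]
      set A := ((t + 1) / 4) ^ e with hA
      set B := ((t + 2) / 4) ^ (e + 1) with hB
      have hApos : 0 < A := by positivity
      have hBpos : 0 < B := by positivity
      have g1 : (5 * t ^ 2 - 4 * t + 3) / (t + 1) ^ 2 * A ≤ ((t + 3) / 4) ^ e := by
        have h5 : ((t + 3) / 4) ^ e = ((t + 3) / (t + 1)) ^ e * A := by
          rw [hA, ← mul_pow]
          congr 1
          field_simp
        rw [h5]
        exact mul_le_mul_of_nonneg_right hb1 hApos.le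
      have g2 : (5 * t ^ 2 + 6 * t + 4) / (t + 2) ^ 2 * B ≤ ((t + 4) / 4) ^ (e + 1) := by
        have h5 : ((t + 4) / 4) ^ (e + 1) = ((t + 4) / (t + 2)) ^ (e + 1) * B := by
          rw [hB, ← mul_pow]
          congr 1
          field_simp
        rw [h5]
        exact mul_le_mul_of_nonneg_right hb2 hBpos.le
      have g3 : ((t + 2) / 2) ^ 4 * (A * B) ≤ ((t + 3) / 4) ^ (e + 2) * ((t + 4) / 4) ^ (e + 2 + 1) := by
        have e5 : ((t + 3) / 4) ^ (e + 2) = ((t + 3) / 4) ^ e * ((t + 3) / 4) ^ 2 := pow_add _ _ _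
        have e6 : ((t + 4) / 4) ^ (e + 2 + 1) = ((t + 4) / 4) ^ (e + 1) * ((t + 4) / 4) ^ 2 := by
          rw [← pow_add]
        rw [e5, e6]
        have g4 : ((5 * t ^ 2 - 4 * t + 3) / (t + 1) ^ 2 * A) * ((t + 3) / 4) ^ 2 *
            (((5 * t ^ 2 + 6 * t + 4) / (t + 2) ^ 2 * B) * ((t + 4) / 4) ^ 2) ≤
            ((t + 3) / 4) ^ e * ((t + 3) / 4) ^ 2 *
              (((t + 4) / 4) ^ (e + 1) * ((t + 4) / 4) ^ 2) := by
          apply mul_le_mul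
          · exact mul_le_mul_of_nonneg_right g1 (by positivity)
          · exact mul_le_mul_of_nonneg_right g2 (by positivity)
          · positivity
          · positivity
        refine le_trans ?_ g4
        have g5 : ((t + 2) / 2) ^ 4 * (A * B) = A * B * ((t + 2) ^ 4 / 16) := by ring
        have g6 : ((5 * t ^ 2 - 4 * t + 3) / (t + 1) ^ 2 * A) * ((t + 3) / 4) ^ 2 *
            (((5 * t ^ 2 + 6 * t + 4) / (t + 2) ^ 2 * B) * ((t + 4) / 4) ^ 2) =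
            A * B * ((5 * t ^ 2 - 4 * t + 3) * (5 * t ^ 2 + 6 * t + 4) * (t + 3) ^ 2 *
              (t + 4) ^ 2 / (256 * ((t + 1) ^ 2 * (t + 2) ^ 2))) := by
          field_simp
          ring
        rw [g5, g6]
        apply mul_le_mul_of_nonneg_left _ (by positivity)
        rw [div_le_div_iff₀ (by positivity) (by positivity)]
        calc (t + 2) ^ 4 * (256 * ((t + 1) ^ 2 * (t + 2) ^ 2))
            = 16 * (16 * (t + 1) ^ 2 * (t + 2) ^ 6) := by ring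
          _ ≤ 16 * ((5 * t ^ 2 - 4 * t + 3) * (5 * t ^ 2 + 6 * t + 4) * (t + 3) ^ 2 *
              (t + 4) ^ 2) := mul_le_mul_of_nonneg_left hpoly (by norm_num)
          _ = _ := by ring
      calc ((t + 2) / 2) ^ 4 * Ga (e + 1) ^ 4
          ≤ ((t + 2) / 2) ^ 4 * (Real.pi ^ 2 / 4 * A * B) :=
            mul_le_mul_of_nonneg_left hih (by positivity)
        _ = Real.pi ^ 2 / 4 * (((t + 2) / 2) ^ 4 * (A * B)) := by ring
        _ ≤ Real.pi ^ 2 / 4 * (((t + 3) / 4) ^ (e + 2) * ((t + 4) / 4) ^ (e + 2 + 1)) :=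
            mul_le_mul_of_nonneg_left g3 (by positivity)
        _ = _ := by ring

theorem CL_pow {k : ℕ} (hk : 1 ≤ k) {c s : ℝ} (hc : 0 < c) (hs : 0 < s) :
    CL k c s ^ (k + 1) = ((k : ℝ) + 1) ^ (k + 1) * (Real.pi ^ 2 / 4) * (c / k) ^ k * s ^ 2 := by
  have hk' : (1 : ℝ) ≤ k := by exact_mod_cast hk
  have e1 := pow_frac (x := Real.pi ^ 2 / 4) (by positivity) (Nat.succ_pos k) 1
  have e2 := pow_frac hs.le (Nat.succ_pos k) 2
  have e8 := pow_frac (x := c / k) (by positivity) (Nat.succ_pos k) k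
  simp only [Nat.succ_eq_add_one, Nat.cast_one, Nat.cast_ofNat, pow_one] at e1 e2 e8
  unfold CL
  rw [mul_pow, mul_pow, mul_pow, e1, e2, e8]

theorem CL_nonneg {k : ℕ} {c s : ℝ} (hc : 0 < c) (hs : 0 < s) : 0 ≤ CL k c s := by
  unfold CL
  positivity

theorem sg_sq {d : ℕ} (hd : 0 < d) : sg d ^ 2 = (d : ℝ) ^ 2 * (Real.pi ^ d / Ga d ^ 2) := by
  unfold sg
  rw [mul_pow, om_sq hd]

/-- angular momentum one in all dimensions -/
theorem Kcl_le_one {k : ℕ} (hk : 1 ≤ k) :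
    Kcl (k + 1) ≤ CL k (((k : ℝ) / 2) ^ 2 - (k : ℝ) / 2 + (((0 : ℕ) : ℝ) + 1) * (((0 : ℕ) : ℝ) + k))
      (sg (k + 1) / ((k + 1 : ℕ) : ℝ)) := by
  have hk' : (1 : ℝ) ≤ k := by exact_mod_cast hk
  have hsg := sg_pos (Nat.succ_pos k)
  have hπ := Real.pi_pos
  have hG := Ga_pos (k + 1)
  have hc : ((k : ℝ) / 2) ^ 2 - (k : ℝ) / 2 + (((0 : ℕ) : ℝ) + 1) * (((0 : ℕ) : ℝ) + k) =
      k * (k + 2) / 4 := by
    push_cast
    ring
  rw [hc]
  have hc0 : 0 < (k : ℝ) * (k + 2) / 4 := by positivity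
  have hs0 : 0 < sg (k + 1) / ((k + 1 : ℕ) : ℝ) := by positivity
  apply le_of_pow_le_pow_left₀ (Nat.succ_ne_zero k) (CL_nonneg hc0 hs0)
  rw [Nat.succ_eq_add_one, Kcl_pow (Nat.succ_pos k), CL_pow hk hc0 hs0, div_pow (sg (k + 1)),
    sg_sq (Nat.succ_pos k)]
  have hb := Ga_bound1 k hk
  push_cast
  have h1 : (k : ℝ) * (k + 2) / 4 / k = (k + 2) / 4 := by field_simp
  rw [h1]
  have h2 : ((k : ℝ) + 1) ^ (k + 1) * (Real.pi ^ 2 / 4) * (((k : ℝ) + 2) / 4) ^ k *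
      (((k : ℝ) + 1) ^ 2 * (Real.pi ^ (k + 1) / Ga (k + 1) ^ 2) / ((k : ℝ) + 1) ^ 2) =
      (((k : ℝ) + 1) ^ (k + 1) * Real.pi ^ (k + 1) / Ga (k + 1) ^ 2) *
        (Real.pi ^ 2 / 4 * (((k : ℝ) + 2) / 4) ^ k) := by
    field_simp
  have h3 : (((k : ℝ) + 1) / ((k : ℝ) + 1 + 2)) ^ (k + 1) * 4 ^ (k + 1) * Real.pi ^ (k + 1) *
      Ga (k + 1) ^ 2 = (((k : ℝ) + 1) ^ (k + 1) * Real.pi ^ (k + 1) / Ga (k + 1) ^ 2) *
        (Ga (k + 1) ^ 4 / (((k : ℝ) + 3) / 4) ^ (k + 1)) := by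
    have e : (k : ℝ) + 1 + 2 = k + 3 := by ring
    rw [e, div_pow, div_pow]
    field_simp
  rw [h2, h3]
  apply mul_le_mul_of_nonneg_left _ (by positivity)
  rw [div_le_iff₀ (by positivity)]
  exact hb

/-- dimension three, all angular momenta `m + 1` -/
theorem Kcl_le_three (m : ℕ) :
    Kcl 3 ≤ CL 2 ((((2 : ℕ) : ℝ) / 2) ^ 2 - ((2 : ℕ) : ℝ) / 2 + ((m : ℝ) + 1) * ((m : ℝ) + (2 : ℕ)))
      (sg 3 / ((2 * m + 3 : ℕ) : ℝ)) := by
  have hm : (0 : ℝ) ≤ m := Nat.cast_nonneg m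
  have hsg := sg_pos (show 0 < 3 by norm_num)
  have hπ := Real.pi_pos
  have hc : (((2 : ℕ) : ℝ) / 2) ^ 2 - ((2 : ℕ) : ℝ) / 2 + ((m : ℝ) + 1) * ((m : ℝ) + (2 : ℕ)) =
      ((m : ℝ) + 1) * (m + 2) := by
    push_cast
    ring
  rw [hc]
  have hc0 : 0 < ((m : ℝ) + 1) * (m + 2) := by positivity
  have hs0 : 0 < sg 3 / ((2 * m + 3 : ℕ) : ℝ) := by positivity
  apply le_of_pow_le_pow_left₀ (show 3 ≠ 0 by norm_num) (CL_nonneg hc0 hs0)
  have h1 := CL_pow (show 1 ≤ 2 by norm_num) hc0 hs0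
  have h2 := Kcl_pow (show 0 < 3 by norm_num)
  rw [show (2 : ℕ) + 1 = 3 from rfl] at h1
  have hs : √Real.pi ^ 2 = Real.pi := Real.sq_sqrt hπ.le
  have hG2 : Ga 3 ^ 2 = 9 / 16 * Real.pi := by
    rw [Ga_three, mul_pow, hs]
    norm_num
  rw [h1, h2, div_pow (sg 3), sg_sq (show 0 < 3 by norm_num), hG2]
  push_cast
  have h3 : (((2 : ℝ) + 1) ^ 3 * (Real.pi ^ 2 / 4) * (((m : ℝ) + 1) * (m + 2) / 2) ^ 2 *
      ((3 : ℝ) ^ 2 * (Real.pi ^ 3 / (9 / 16 * Real.pi)) / (2 * (m : ℝ) + 3) ^ 2)) =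
      27 * Real.pi ^ 4 * ((((m : ℝ) + 1) * (m + 2)) / (2 * m + 3)) ^ 2 := by
    field_simp
    ring
  rw [h3]
  have h4 : (2 / 3 : ℝ) ≤ (((m : ℝ) + 1) * (m + 2)) / (2 * m + 3) := by
    rw [le_div_iff₀ (by positivity)]
    nlinarith
  have h5 : (4 / 9 : ℝ) ≤ ((((m : ℝ) + 1) * (m + 2)) / (2 * m + 3)) ^ 2 := by
    nlinarith
  have h6 : (((3 : ℝ) / (3 + 2)) ^ 3 * 4 ^ 3 * Real.pi ^ 3 * (9 / 16 * Real.pi)) =
      27 * Real.pi ^ 4 * (36 / 125) := by ring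
  rw [h6]
  apply mul_le_mul_of_nonneg_left _ (by positivity)
  linarith

/-- dimension two, all angular momenta `m + 1` -/
theorem Kcl_le_two (m : ℕ) :
    Kcl 2 ≤ CL 1 ((((1 : ℕ) : ℝ) / 2) ^ 2 - ((1 : ℕ) : ℝ) / 2 + ((m : ℝ) + 1) * ((m : ℝ) + (1 : ℕ)))
      (sg 2 / ((2 : ℕ) : ℝ)) := by
  have hm : (0 : ℝ) ≤ m := Nat.cast_nonneg m
  have hsg := sg_pos (show 0 < 2 by norm_num)
  have hπ := Real.pi_pos
  have hπ2 : 9.85 < Real.pi ^ 2 := by
    have := Real.pi_gt_d2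
    nlinarith
  have hc : (((1 : ℕ) : ℝ) / 2) ^ 2 - ((1 : ℕ) : ℝ) / 2 + ((m : ℝ) + 1) * ((m : ℝ) + (1 : ℕ)) =
      ((m : ℝ) + 1) ^ 2 - 1 / 4 := by
    push_cast
    ring
  rw [hc]
  have hc0 : 0 < ((m : ℝ) + 1) ^ 2 - 1 / 4 := by nlinarith
  have hs0 : 0 < sg 2 / ((2 : ℕ) : ℝ) := by positivity
  apply le_of_pow_le_pow_left₀ (show 2 ≠ 0 by norm_num) (CL_nonneg hc0 hs0)
  have h1 := CL_pow (show 1 ≤ 1 from le_rfl) hc0 hs0
  have h2 := Kcl_pow (show 0 < 2 by norm_num)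
  rw [show (1 : ℕ) + 1 = 2 from rfl] at h1
  rw [h1, h2, div_pow (sg 2), sg_sq (show 0 < 2 by norm_num), Ga_two]
  push_cast
  have h3 : (((1 : ℝ) + 1) ^ 2 * (Real.pi ^ 2 / 4) * ((((m : ℝ) + 1) ^ 2 - 1 / 4) / 1) ^ 1 *
      ((2 : ℝ) ^ 2 * (Real.pi ^ 2 / 1 ^ 2) / 2 ^ 2)) =
      Real.pi ^ 2 * (Real.pi ^ 2 * (((m : ℝ) + 1) ^ 2 - 1 / 4)) := by
    ring
  rw [h3]
  have h4 : ((2 : ℝ) / (2 + 2)) ^ 2 * 4 ^ 2 * Real.pi ^ 2 * 1 ^ 2 = Real.pi ^ 2 * 4 := by ring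
  rw [h4]
  apply mul_le_mul_of_nonneg_left _ (by positivity)
  nlinarith

/-- the coordinates are a multiplet of angular momentum one -/
theorem shell_coord (d : ℕ) : Shell (d := d) 1 (fun (j : Fin d) (x : E d) => x j) := by
  have hfd : ∀ (j : Fin d) (x : E d), fderiv ℝ (fun y : E d => y j) x =
      (EuclideanSpace.proj j : E d →L[ℝ] ℝ) := fun j x =>
    (EuclideanSpace.proj j : E d →L[ℝ] ℝ).fderiv
  constructor
  · intro j
    exact (EuclideanSpace.proj j : E d →L[ℝ] ℝ).contDiff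
  · intro j x
    rw [hfd]
    simp
  · intro x
    rw [← EuclideanSpace.real_norm_sq_eq]
  · intro x
    have h1 : ∀ j i : Fin d, fderiv ℝ (fun y : E d => y j) x (EuclideanSpace.single i 1) ^ 2 =
        if i = j then 1 else 0 := by
      intro j i
      rw [hfd]
      by_cases h : i = j
      · subst h
        simp
      · have h' : j ≠ i := fun e => h e.symm
        simp [h, h']
    simp only [h1]
    simp

end Pool.Agent.R117.RL
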