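import Pool.Agent.R117.RL.Shell

/-!
Closed shells on Euclidean space.
-/

open MeasureTheory Set Filter Topology
open scoped InnerProductSpace

namespace Pool.Agent.R117.RL

/-- A multiplet of angular momentum `l`: real functions which are continuously differentiable and
homogeneous of degree `l` (Euler's relation), with `∑ P_j² = |x|^(2l)` and
`∑ |∇P_j|² = l (2 l + d - 2) |x|^(2l-2)`. -/
structure Shell {d g : ℕ} (l : ℕ) (P : Fin g → E d → ℝ) : Prop where
  smooth : ∀ j, ContDiff ℝ 1 (P j)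
  euler : ∀ j x, fderiv ℝ (P j) x x = l * P j x
  square : ∀ x, ∑ j, P j x ^ 2 = ‖x‖ ^ (2 * l)
  gradient : ∀ x, ∑ j, ∑ i, fderiv ℝ (P j) x (EuclideanSpace.single i 1) ^ 2 =
    l * (2 * l + d - 2) * ‖x‖ ^ (2 * l - 2)

/-- An orthonormal system of the functions `u_{n,j}(x) = G_n(|x|) P_j(x)`. -/
structure ShellSystem {d g N : ℕ} (P : Fin g → E d → ℝ) (u : Fin N → Fin g → E d → ℂ) :
    Prop where
  form : ∃ G : Fin N → ℝ → ℂ, (∀ n, ContDiffOn ℝ 1 (G n) (Ioi 0)) ∧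
    ∀ n j x, u n j x = G n ‖x‖ * P j x
  square : ∀ n j, Integrable (fun x => ‖u n j x‖ ^ 2)
  energy : ∀ n j, Integrable (grad2 (u n j))
  orthonormal : ∀ n m i j, ∫ x, star (u n i x) * u m j x = if n = m ∧ i = j then (1 : ℂ) else 0

theorem sum_coord {d : ℕ} (x : E d) (L : E d →L[ℝ] ℝ) :
    ∑ i, x i * L (EuclideanSpace.single i 1) = L x := by
  have h1 : ∑ i, x i • (EuclideanSpace.single i (1 : ℝ) : E d) = x := by
    have := (EuclideanSpace.basisFun (Fin d) ℝ).sum_repr x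
    simpa using this
  conv_rhs => rw [← h1]
  rw [map_sum]
  refine Finset.sum_congr rfl fun i _ => ?_
  rw [map_smul, smul_eq_mul]

/-- the gradient of `G(|x|) P(x)` -/
theorem grad_prod {d : ℕ} {G : ℝ → ℂ} {G' : ℂ} {P : E d → ℝ} {x : E d} (hx : x ≠ 0)
    (hG : HasDerivAt G G' ‖x‖) (hP : DifferentiableAt ℝ P x) :
    grad2 (fun y => G ‖y‖ * P y) x =
      (∑ i, fderiv ℝ P x (EuclideanSpace.single i 1) ^ 2) * ‖G ‖x‖‖ ^ 2 +
        2 * (P x * fderiv ℝ P x x / ‖x‖) * ⟪G ‖x‖, G'⟫_ℝ + P x ^ 2 * ‖G'‖ ^ 2 := by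
  have h0 := norm_ne_zero_iff.2 hx
  have h1 : HasFDerivAt (fun y : E d => G ‖y‖)
      ((ContinuousLinearMap.toSpanSingleton ℝ G').comp ((1 / ‖x‖) • innerSL ℝ x)) x :=
    hG.hasFDerivAt.comp x (norm_deriv hx)
  have h2 : HasFDerivAt (fun y : E d => (P y : ℂ)) (Complex.ofRealCLM.comp (fderiv ℝ P x)) x :=
    Complex.ofRealCLM.hasFDerivAt.comp x hP.hasFDerivAt
  have h3 := h1.mul h2
  unfold grad2
  have h4 : fderiv ℝ (fun y : E d => G ‖y‖ * (P y : ℂ)) x =
      G ‖x‖ • Complex.ofRealCLM.comp (fderiv ℝ P x) + (P x : ℂ) •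
        (ContinuousLinearMap.toSpanSingleton ℝ G').comp ((1 / ‖x‖) • innerSL ℝ x) := h3.fderiv
  rw [h4]
  have h5 : ∀ i : Fin d, ‖(G ‖x‖ • Complex.ofRealCLM.comp (fderiv ℝ P x) + (P x : ℂ) •
      (ContinuousLinearMap.toSpanSingleton ℝ G').comp ((1 / ‖x‖) • innerSL ℝ x))
        (EuclideanSpace.single i 1)‖ ^ 2 =
      fderiv ℝ P x (EuclideanSpace.single i 1) ^ 2 * ‖G ‖x‖‖ ^ 2 +
        x i * fderiv ℝ P x (EuclideanSpace.single i 1) * (2 * (P x / ‖x‖) * ⟪G ‖x‖, G'⟫_ℝ) +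
        x i ^ 2 * (P x ^ 2 / ‖x‖ ^ 2 * ‖G'‖ ^ 2) := by
    intro i
    have h6 : ⟪x, EuclideanSpace.single i (1 : ℝ)⟫_ℝ = x i := by
      rw [EuclideanSpace.inner_single_right]
      simp
    set D := fderiv ℝ P x (EuclideanSpace.single i 1) with hD
    have h7 : (G ‖x‖ • Complex.ofRealCLM.comp (fderiv ℝ P x) + (P x : ℂ) •
      (ContinuousLinearMap.toSpanSingleton ℝ G').comp ((1 / ‖x‖) • innerSL ℝ x))
        (EuclideanSpace.single i 1) = D • G ‖x‖ + (P x * x i / ‖x‖) • G' := by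
      simp only [add_apply, smul_apply, ContinuousLinearMap.comp_apply,
        ContinuousLinearMap.toSpanSingleton_apply, innerSL_apply_apply, h6, Complex.ofRealCLM_apply,
        smul_eq_mul, Complex.real_smul]
      rw [← hD]
      push_cast
      ring
    rw [h7, norm_add_sq_real, norm_smul, norm_smul, mul_pow, mul_pow, Real.norm_eq_abs,
      Real.norm_eq_abs, sq_abs, sq_abs, inner_smul_left, inner_smul_right]
    simp only [conj_trivial]
    field_simp
  rw [Finset.sum_congr rfl fun i _ => h5 i, Finset.sum_add_distrib, Finset.sum_add_distrib,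
    ← Finset.sum_mul, ← Finset.sum_mul, ← Finset.sum_mul, sum_coord,
    ← EuclideanSpace.real_norm_sq_eq]
  field_simp

/-- the sum of the gradients over a shell -/
theorem grad_shell {d g m : ℕ} {P : Fin g → E d → ℝ} (hS : Shell (m + 1) P) {G : ℝ → ℂ} {G' : ℂ}
    {x : E d} (hx : x ≠ 0) (hG : HasDerivAt G G' ‖x‖) :
    ∑ j, grad2 (fun y => G ‖y‖ * P j y) x =
      ‖(‖x‖ ^ (m + 1)) • G' + (((m : ℝ) + 1) * ‖x‖ ^ m) • G ‖x‖‖ ^ 2 +
        ((m : ℝ) + 1) * ((m : ℝ) + 1 + d - 2) * (‖(‖x‖ ^ (m + 1)) • G ‖x‖‖ ^ 2 / ‖x‖ ^ 2) := by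
  have h0 := norm_ne_zero_iff.2 hx
  have h1 : ∀ j, grad2 (fun y => G ‖y‖ * P j y) x =
      (∑ i, fderiv ℝ (P j) x (EuclideanSpace.single i 1) ^ 2) * ‖G ‖x‖‖ ^ 2 +
        P j x ^ 2 * (2 * (((m : ℝ) + 1) / ‖x‖) * ⟪G ‖x‖, G'⟫_ℝ + ‖G'‖ ^ 2) := by
    intro j
    rw [grad_prod hx hG ((hS.smooth j).differentiable one_ne_zero x), hS.euler j x]
    push_cast
    ring
  rw [Finset.sum_congr rfl fun j _ => h1 j, Finset.sum_add_distrib, ← Finset.sum_mul,
    ← Finset.sum_mul, hS.gradient x, hS.square x]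
  have e1 : 2 * (m + 1) - 2 = 2 * m := by omega
  have hI : ⟪G', G ‖x‖⟫_ℝ = ⟪G ‖x‖, G'⟫_ℝ := real_inner_comm _ _
  rw [e1, norm_add_sq_real, norm_smul, norm_smul, norm_smul, mul_pow, mul_pow, mul_pow,
    Real.norm_eq_abs, Real.norm_eq_abs, sq_abs, sq_abs, inner_smul_left, inner_smul_right, hI]
  simp only [conj_trivial]
  have e2 : ‖x‖ ^ (2 * (m + 1)) = (‖x‖ ^ m) ^ 2 * ‖x‖ ^ 2 := by
    rw [← pow_mul, ← pow_add]
    ring_nf
  have e3 : ‖x‖ ^ (2 * m) = (‖x‖ ^ m) ^ 2 := by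
    rw [← pow_mul, mul_comm]
  rw [e2, e3, pow_succ]
  push_cast
  field_simp
  ring

/-- **The kinetic inequality for closed shells.** -/
theorem shell_system {k g m N : ℕ} (hk : 1 ≤ k) (hg : 0 < g) {P : Fin g → E (k + 1) → ℝ}
    (hS : Shell (m + 1) P) (u : Fin N → Fin g → E (k + 1) → ℂ) (h : ShellSystem P u) :
    Integrable (fun x : E (k + 1) => (∑ n, ∑ j, ‖u n j x‖ ^ 2) ^ (1 + 2 / ((k + 1 : ℕ) : ℝ))) ∧
    CL k (((k : ℝ) / 2) ^ 2 - (k : ℝ) / 2 + ((m : ℝ) + 1) * ((m : ℝ) + k)) (sg (k + 1) / g) *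
      (∫ x : E (k + 1), (∑ n, ∑ j, ‖u n j x‖ ^ 2) ^ (1 + 2 / ((k + 1 : ℕ) : ℝ))) ≤
      ∑ n, ∑ j, ∫ x, grad2 (u n j) x := by
  have hk' : (1 : ℝ) ≤ k := by exact_mod_cast hk
  have hm0 : (0 : ℝ) ≤ m := Nat.cast_nonneg m
  obtain ⟨G, hG, hform⟩ := h.form
  set lam : ℝ := ((m : ℝ) + 1) * ((m : ℝ) + k) with hlam
  have hl : 0 ≤ lam := by positivity
  have hαα : 0 < ((k : ℝ) / 2) ^ 2 - (k : ℝ) / 2 + lam := by
    rw [hlam]
    nlinarith [sq_nonneg ((k : ℝ) / 2 - 1 / 2)]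
  have hq : (0 : ℝ) < g := by exact_mod_cast hg
  -- the derivatives of the profiles
  have hGd : ∀ n r, 0 < r → HasDerivAt (G n) (deriv (G n) r) r := fun n r hr =>
    (((hG n).differentiableOn one_ne_zero).differentiableAt (Ioi_mem_nhds hr)).hasDerivAt
  have hGc : ∀ n, ContinuousOn (deriv (G n)) (Ioi 0) := fun n =>
    (hG n).continuousOn_deriv_of_isOpen isOpen_Ioi le_rfl
  have hGc0 : ∀ n, ContinuousOn (G n) (Ioi 0) := fun n => (hG n).continuousOn
  set F : Fin N → ℝ → ℂ := fun n r => (r ^ (m + 1)) • G n r with hF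
  set F' : Fin N → ℝ → ℂ := fun n r =>
    (r ^ (m + 1)) • deriv (G n) r + (((m : ℝ) + 1) * r ^ m) • G n r with hF'
  have hFd : ∀ n r, 0 < r → HasDerivAt (F n) (F' n r) r := by
    intro n r hr
    have h1 : HasDerivAt (fun t : ℝ => t ^ (m + 1)) (((m : ℝ) + 1) * r ^ m) r := by
      have := hasDerivAt_pow (m + 1) r
      simpa using this
    exact h1.smul (hGd n r hr)
  have hFc : ∀ n, ContinuousOn (F' n) (Ioi 0) := fun n =>
    ((continuousOn_id.pow (m + 1)).smul (hGc n)).add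
      ((continuousOn_const.mul (continuousOn_id.pow m)).smul (hGc0 n))
  -- sums over the shell
  have hsum : ∀ n x, ∑ j, ‖u n j x‖ ^ 2 = ‖F n ‖x‖‖ ^ 2 := by
    intro n x
    have h1 : ∀ j, ‖u n j x‖ ^ 2 = ‖G n ‖x‖‖ ^ 2 * P j x ^ 2 := by
      intro j
      rw [hform, norm_mul, mul_pow, Complex.norm_real, Real.norm_eq_abs, sq_abs]
    rw [Finset.sum_congr rfl fun j _ => h1 j, ← Finset.mul_sum, hS.square x, hF]
    simp only
    rw [norm_smul, mul_pow, Real.norm_eq_abs, sq_abs, ← pow_mul, mul_comm 2 (m + 1)]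
    ring
  have hne : ∀ᵐ x : E (k + 1), x ≠ 0 := by
    rw [ae_iff]
    simp
  have hgrad : ∀ n, ∀ᵐ x : E (k + 1), ∑ j, grad2 (u n j) x =
      ‖F' n ‖x‖‖ ^ 2 + lam * (‖F n ‖x‖‖ ^ 2 / ‖x‖ ^ 2) := by
    intro n
    filter_upwards [hne] with x hx
    have h1 : ∀ j, u n j = fun y => G n ‖y‖ * (P j y : ℂ) := fun j => funext (hform n j)
    simp only [h1]
    rw [grad_shell hS hx (hGd n ‖x‖ (norm_pos_iff.2 hx)), hlam]
    congr 2
    push_cast
    ring
  -- measurability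
  have hmeas : ∀ n j, AEStronglyMeasurable (u n j) volume := by
    intro n j
    have h1 : ContinuousOn (u n j) {0}ᶜ := by
      have h2 : u n j = fun y => G n ‖y‖ * (P j y : ℂ) := funext (hform n j)
      rw [h2]
      apply ContinuousOn.mul
      · apply (hGc0 n).comp continuous_norm.continuousOn
        intro x hx
        exact norm_pos_iff.2 hx
      · exact (Complex.continuous_ofReal.comp (hS.smooth j).continuous).continuousOn
    have h2 := h1.aestronglyMeasurable (μ := volume) isOpen_compl_singleton.measurableSet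
    rwa [restrict_compl_singleton] at h2
  have hprod : ∀ n n' j, Integrable (fun x => star (u n j x) * u n' j x) := by
    intro n n' j
    refine Integrable.mono' ((h.square n j).add (h.square n' j)) ?_ ?_
    · exact (continuous_star.comp_aestronglyMeasurable (hmeas n j)).mul (hmeas n' j)
    · refine Eventually.of_forall fun x => ?_
      rw [norm_mul, norm_star]
      simp only [Pi.add_apply]
      nlinarith [sq_nonneg (‖u n j x‖ - ‖u n' j x‖), sq_nonneg ‖u n j x‖, sq_nonneg ‖u n' j x‖]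
  have horth : ∀ n n', ∫ x : E (k + 1), star (F n ‖x‖) * F n' ‖x‖ =
      if n = n' then ((g : ℝ) : ℂ) else 0 := by
    intro n n'
    have h1 : ∀ x : E (k + 1), star (F n ‖x‖) * F n' ‖x‖ = ∑ j, star (u n j x) * u n' j x := by
      intro x
      have h2 : ∀ j, star (u n j x) * u n' j x =
          (P j x ^ 2 : ℝ) • (star (G n ‖x‖) * G n' ‖x‖) := by
        intro j
        rw [hform, hform]
        simp only [Complex.real_smul, star_mul', Complex.star_def, Complex.conj_ofReal]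
        push_cast
        ring
      rw [Finset.sum_congr rfl fun j _ => h2 j, ← Finset.sum_smul, hS.square x, hF]
      simp only [Complex.real_smul, star_mul', Complex.star_def, Complex.conj_ofReal]
      push_cast
      ring
    simp only [h1]
    rw [integral_finsetSum _ fun j _ => hprod n n' j]
    rw [Finset.sum_congr rfl fun j _ => h.orthonormal n n' j j]
    by_cases hnn : n = n'
    · simp [hnn]
    · simp [hnn]
  have h2 : ∀ n, Integrable (fun x : E (k + 1) => ‖F n ‖x‖‖ ^ 2) := by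
    intro n
    have h3 : Integrable (fun x => ∑ j, ‖u n j x‖ ^ 2) :=
      integrable_finsetSum _ fun j _ => h.square n j
    simp only [hsum] at h3
    exact h3
  have hd : ∀ n, Integrable (fun x : E (k + 1) =>
      ‖F' n ‖x‖‖ ^ 2 + lam * (‖F n ‖x‖‖ ^ 2 / ‖x‖ ^ 2)) := by
    intro n
    have h3 : Integrable (fun x => ∑ j, grad2 (u n j) x) :=
      integrable_finsetSum _ fun j _ => h.energy n j
    exact h3.congr (hgrad n)
  have hmain := radial2 hk hq hl hαα F F' hFd hFc h2 hd horth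
  have e1 : (fun x : E (k + 1) => (∑ n, ∑ j, ‖u n j x‖ ^ 2) ^ (1 + 2 / ((k + 1 : ℕ) : ℝ))) =
      fun x => (∑ n, ‖F n ‖x‖‖ ^ 2) ^ (1 + 2 / ((k + 1 : ℕ) : ℝ)) := by
    funext x
    simp only [hsum]
  rw [e1]
  refine ⟨hmain.1, hmain.2.trans (le_of_eq ?_)⟩
  refine Finset.sum_congr rfl fun n _ => ?_
  rw [← integral_finsetSum _ fun j _ => h.energy n j]
  exact (integral_congr_ae (hgrad n)).symm

end Pool.Agent.R117.RL
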