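import Pool.Agent.R117.RL.Half
import Pool.Agent.Helper490.LTH1C

/-!
Orthonormal systems on the half line.
-/

open MeasureTheory Set Filter Topology
open scoped InnerProductSpace

namespace Pool.Agent.R117.RL

/-- extension by zero to the whole line -/
noncomputable def ext (f : ℝ → ℂ) : ℝ → ℂ := (Ioi (0 : ℝ)).indicator f

theorem ext_pos {f : ℝ → ℂ} {x : ℝ} (hx : 0 < x) : ext f x = f x :=
  indicator_of_mem (show x ∈ Ioi (0 : ℝ) from hx) f

theorem ext_nonpos {f : ℝ → ℂ} {x : ℝ} (hx : x ≤ 0) : ext f x = 0 :=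
  indicator_of_notMem (fun h : x ∈ Ioi (0 : ℝ) => absurd h (not_lt.2 hx)) f

theorem ext_sq (f : ℝ → ℂ) :
    (fun x => ‖ext f x‖ ^ 2) = (Ioi (0 : ℝ)).indicator (fun r => ‖f r‖ ^ 2) := by
  funext x
  by_cases hx : 0 < x
  · rw [ext_pos hx, indicator_of_mem (show x ∈ Ioi (0 : ℝ) from hx)]
  · rw [ext_nonpos (not_lt.1 hx), indicator_of_notMem (fun h : x ∈ Ioi (0 : ℝ) => hx h)]
    simp

theorem ext_memLp {f : ℝ → ℂ} (hc : ContinuousOn f (Ioi 0))
    (h2 : IntegrableOn (fun r => ‖f r‖ ^ 2) (Ioi 0)) : MemLp (ext f) 2 := by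
  have hm : AEStronglyMeasurable (ext f) volume := by
    unfold ext
    rw [aestronglyMeasurable_indicator_iff measurableSet_Ioi]
    exact hc.aestronglyMeasurable measurableSet_Ioi
  rw [memLp_two_iff_integrable_sq_norm hm, ext_sq]
  exact h2.integrable_indicator measurableSet_Ioi

theorem ext_cont {f f' : ℝ → ℂ} (hf : ∀ r, 0 < r → HasDerivAt f (f' r) r)
    (h0 : Tendsto f (𝓝[>] 0) (𝓝 0)) : Continuous (ext f) := by
  rw [continuous_iff_continuousAt]
  intro x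
  rcases lt_trichotomy x 0 with hx | hx | hx
  · have h1 : ext f =ᶠ[𝓝 x] fun _ => 0 := by
      filter_upwards [Iio_mem_nhds hx] with y hy
      exact ext_nonpos (le_of_lt hy)
    exact continuousAt_const.congr h1.symm
  · subst hx
    rw [ContinuousAt, ext_nonpos le_rfl, ← nhdsLE_sup_nhdsGT, tendsto_sup]
    constructor
    · apply tendsto_const_nhds.congr'
      filter_upwards [self_mem_nhdsWithin] with y hy
      exact (ext_nonpos hy).symm
    · apply h0.congr'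
      filter_upwards [self_mem_nhdsWithin] with y hy
      exact (ext_pos hy).symm
  · have h1 : ext f =ᶠ[𝓝 x] f := by
      filter_upwards [Ioi_mem_nhds hx] with y hy
      exact ext_pos hy
    exact (hf x hx).continuousAt.congr h1.symm

theorem ext_ftc {f f' : ℝ → ℂ} (hf : ∀ r, 0 < r → HasDerivAt f (f' r) r)
    (h0 : Tendsto f (𝓝[>] 0) (𝓝 0)) (hg : MemLp (ext f') 2) (a b : ℝ) :
    ext f b - ext f a = ∫ x in a..b, ext f' x := by
  symm
  apply integral_eq_of_hasDerivAt_off_countable (ext f) (ext f') (countable_singleton (0 : ℝ))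
    (ext_cont hf h0).continuousOn
  · intro x hx
    have hx0 : x ≠ 0 := hx.2
    rcases lt_or_gt_of_ne hx0 with h | h
    · rw [ext_nonpos h.le]
      have h1 : ext f =ᶠ[𝓝 x] fun _ => 0 := by
        filter_upwards [Iio_mem_nhds h] with y hy
        exact ext_nonpos (le_of_lt hy)
      exact (hasDerivAt_const x (0 : ℂ)).congr_of_eventuallyEq h1
    · rw [ext_pos h]
      have h1 : ext f =ᶠ[𝓝 x] f := by
        filter_upwards [Ioi_mem_nhds h] with y hy
        exact ext_pos hy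
      exact (hf x h).congr_of_eventuallyEq h1
  · have h1 : LocallyIntegrable (ext f') volume := hg.locallyIntegrable (by norm_num)
    rw [intervalIntegrable_iff]
    exact (h1.integrableOn_isCompact isCompact_uIcc).mono_set uIoc_subset_uIcc

/-- the sharp inequality on the line, for systems on the half line with a centrifugal term -/
theorem halfline {N : ℕ} {α : ℝ} (hα : 1 < α) (f f' : Fin N → ℝ → ℂ)
    (hf : ∀ n r, 0 < r → HasDerivAt (f n) (f' n r) r) (hc : ∀ n, ContinuousOn (f' n) (Ioi 0))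
    (h2 : ∀ n, IntegrableOn (fun r => ‖f n r‖ ^ 2) (Ioi 0))
    (hφ : ∀ n, IntegrableOn (fun r => ‖f' n r - (α / r) • f n r‖ ^ 2) (Ioi 0))
    (ho : ∀ n m, ∫ r in Ioi 0, star (f n r) * f m r = if n = m then (1 : ℂ) else 0) :
    IntegrableOn (fun r => Real.pi ^ 2 / 4 * (∑ n, ‖f n r‖ ^ 2) ^ 3 +
      (α ^ 2 - α) * ((∑ n, ‖f n r‖ ^ 2) / r ^ 2)) (Ioi 0) ∧
    (∫ r in Ioi 0, (Real.pi ^ 2 / 4 * (∑ n, ‖f n r‖ ^ 2) ^ 3 +
      (α ^ 2 - α) * ((∑ n, ‖f n r‖ ^ 2) / r ^ 2))) ≤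
      ∑ n, ∫ r in Ioi 0, ‖f' n r - (α / r) • f n r‖ ^ 2 := by
  have hαα : 0 < α ^ 2 - α := by nlinarith
  have hcf : ∀ n, ContinuousOn (f n) (Ioi 0) := fun n r hr =>
    (hf n r hr).continuousAt.continuousWithinAt
  have hne2 : ∀ r ∈ Ioi (0 : ℝ), r ^ 2 ≠ 0 := fun r hr => pow_ne_zero 2 (ne_of_gt hr)
  have htot := fun n => total hα (hf n) (hc n) (h2 n) (hφ n)
  -- the two parts
  have hd : ∀ n, IntegrableOn (fun r => ‖f' n r‖ ^ 2) (Ioi 0) := by
    intro n
    refine Integrable.mono' (htot n).1 ?_ ?_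
    · exact ((hc n).norm.pow 2).aestronglyMeasurable measurableSet_Ioi
    · refine Eventually.of_forall fun r => ?_
      rw [Real.norm_eq_abs, abs_of_nonneg (sq_nonneg _)]
      have : 0 ≤ (α ^ 2 - α) * (‖f n r‖ ^ 2 / r ^ 2) := by positivity
      linarith
  have hr2 : ∀ n, IntegrableOn (fun r => ‖f n r‖ ^ 2 / r ^ 2) (Ioi 0) := by
    intro n
    refine Integrable.mono' ((htot n).1.const_mul (α ^ 2 - α)⁻¹) ?_ ?_
    · exact (((hcf n).norm.pow 2).div (continuousOn_id.pow 2) hne2).aestronglyMeasurable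
        measurableSet_Ioi
    · refine Eventually.of_forall fun r => ?_
      have h0 : 0 ≤ ‖f n r‖ ^ 2 / r ^ 2 := by positivity
      rw [Real.norm_eq_abs, abs_of_nonneg h0, mul_add, ← mul_assoc,
        inv_mul_cancel₀ hαα.ne', one_mul]
      have : 0 ≤ (α ^ 2 - α)⁻¹ * ‖f' n r‖ ^ 2 := by positivity
      linarith
  have hu := fun n => ext_memLp (hcf n) (h2 n)
  have hg := fun n => ext_memLp (hc n) (hd n)
  have hlim := fun n => limit_zero hα (hf n) (hc n) (h2 n) (hφ n)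
  have horth : ∀ n m, ∫ x, star (ext (f n) x) * ext (f m) x = if n = m then (1 : ℂ) else 0 := by
    intro n m
    rw [← ho n m, ← integral_indicator measurableSet_Ioi]
    congr 1
    funext x
    by_cases hx : 0 < x
    · rw [ext_pos hx, ext_pos hx, indicator_of_mem (show x ∈ Ioi (0 : ℝ) from hx)]
    · rw [ext_nonpos (not_lt.1 hx), ext_nonpos (not_lt.1 hx),
        indicator_of_notMem (fun h : x ∈ Ioi (0 : ℝ) => hx h)]
      simp
  have hsharp := Pool.Helper490.Calib.sharp_H1_complex (fun n => ext (f n)) (fun n => ext (f' n))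
    hu hg (fun n a b => ext_ftc (hf n) (hlim n) (hg n) a b) horth
  have e3 : (fun x => (∑ n, ‖ext (f n) x‖ ^ 2) ^ 3) =
      (Ioi (0 : ℝ)).indicator (fun r => (∑ n, ‖f n r‖ ^ 2) ^ 3) := by
    funext x
    by_cases hx : 0 < x
    · rw [indicator_of_mem (show x ∈ Ioi (0 : ℝ) from hx)]
      congr 1
      exact Finset.sum_congr rfl fun n _ => by rw [ext_pos hx]
    · rw [indicator_of_notMem (fun h : x ∈ Ioi (0 : ℝ) => hx h)]
      have : ∑ n, ‖ext (f n) x‖ ^ 2 = 0 := Finset.sum_eq_zero fun n _ => by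
        rw [ext_nonpos (not_lt.1 hx)]
        simp
      rw [this]
      norm_num
  rw [e3, integrable_indicator_iff measurableSet_Ioi, integral_indicator measurableSet_Ioi]
    at hsharp
  have e4 : ∀ n, ∫ x, ‖ext (f' n) x‖ ^ 2 = ∫ r in Ioi 0, ‖f' n r‖ ^ 2 := by
    intro n
    rw [ext_sq, integral_indicator measurableSet_Ioi]
  rw [Finset.sum_congr rfl fun n _ => e4 n] at hsharp
  have hsum : IntegrableOn (fun r => (∑ n, ‖f n r‖ ^ 2) / r ^ 2) (Ioi 0) := by
    simp only [Finset.sum_div]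
    exact integrable_finsetSum _ fun n _ => hr2 n
  have hI1 : IntegrableOn (fun r => Real.pi ^ 2 / 4 * (∑ n, ‖f n r‖ ^ 2) ^ 3) (Ioi 0) :=
    hsharp.1.const_mul _
  have hI2 : IntegrableOn (fun r => (α ^ 2 - α) * ((∑ n, ‖f n r‖ ^ 2) / r ^ 2)) (Ioi 0) :=
    hsum.const_mul _
  refine ⟨hI1.add hI2, ?_⟩
  rw [integral_add hI1 hI2, integral_const_mul, integral_const_mul]
  have e5 : ∫ r in Ioi 0, (∑ n, ‖f n r‖ ^ 2) / r ^ 2 = ∑ n, ∫ r in Ioi 0, ‖f n r‖ ^ 2 / r ^ 2 := by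
    simp only [Finset.sum_div]
    exact integral_finsetSum _ fun n _ => hr2 n
  rw [e5]
  have h7 : ∀ n, (∫ r in Ioi 0, ‖f' n r‖ ^ 2) + (α ^ 2 - α) * ∫ r in Ioi 0, ‖f n r‖ ^ 2 / r ^ 2 ≤
      ∫ r in Ioi 0, ‖f' n r - (α / r) • f n r‖ ^ 2 := by
    intro n
    have h8 := (htot n).2
    rw [integral_add (hd n) ((hr2 n).const_mul _), integral_const_mul] at h8
    exact h8
  calc Real.pi ^ 2 / 4 * (∫ r in Ioi 0, (∑ n, ‖f n r‖ ^ 2) ^ 3) +
        (α ^ 2 - α) * ∑ n, ∫ r in Ioi 0, ‖f n r‖ ^ 2 / r ^ 2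
      ≤ ∑ n, (∫ r in Ioi 0, ‖f' n r‖ ^ 2) +
        (α ^ 2 - α) * ∑ n, ∫ r in Ioi 0, ‖f n r‖ ^ 2 / r ^ 2 := by linarith [hsharp.2]
    _ = ∑ n, ((∫ r in Ioi 0, ‖f' n r‖ ^ 2) + (α ^ 2 - α) * ∫ r in Ioi 0, ‖f n r‖ ^ 2 / r ^ 2) := by
        rw [Finset.sum_add_distrib, Finset.mul_sum]
    _ ≤ _ := Finset.sum_le_sum fun n _ => h7 n

end Pool.Agent.R117.RL
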